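import Pool.Agent.Helper49.Ric.Dist

/-! Completeness of the model metric. -/

namespace Pool.Agent.Helper49.Ric

open scoped ContDiff
open Finset intervalIntegral MeasureTheory Set Filter Topology

noncomputable section

variable {k : ℕ}

lemma forall3 {P : Fin (k + 3) → Prop} (h0 : P 0) (h1 : P 1) (h2 : P 2)
    (hu : ∀ i : Fin k, P (uix i)) : ∀ i, P i := by
  intro i
  refine Fin.cases h0 (fun i => ?_) i
  refine Fin.cases h1 (fun i => ?_) i
  refine Fin.cases h2 (fun i => ?_) i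
  exact hu i

lemma abs_coord_le (p : Fin (k + 3) → ℝ) (i : Fin (k + 3)) : |p i| ≤ ‖p‖ := by
  have := norm_le_pi_norm p i
  simpa using this

lemma cdot_le_norm (v : Fin (k + 3) → ℝ) : cdot v v ≤ k * ‖v‖ ^ 2 := by
  unfold cdot
  calc ∑ i : Fin k, v (uix i) * v (uix i) ≤ ∑ i : Fin k, ‖v‖ ^ 2 := by
        refine Finset.sum_le_sum fun i _ => ?_
        have h := abs_coord_le v (uix i)
        have h2 := mul_le_mul h h (abs_nonneg _) (norm_nonneg _)
        rw [abs_mul_abs_self] at h2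
        rw [pow_two]; exact h2
    _ = k * ‖v‖ ^ 2 := by simp

lemma fL_mono {a b : ℝ} (ha : 0 ≤ a) (hab : a ≤ b) : fL a ≤ fL b := by
  unfold fL
  have := Real.log_le_log (by linarith : (0:ℝ) < 1 + a) (by linarith : 1 + a ≤ 1 + b)
  linarith

/-- constant in the displacement bound -/
def cst (k : ℕ) (R : ℝ) : ℝ := 1 + R + ((2 + k * R ^ 2) * fL (1 + k * R ^ 2) + 1)

lemma one_le_cst {R : ℝ} (hR : 0 ≤ R) : 1 ≤ cst k R := by
  unfold cst
  have h1 : 0 ≤ (k:ℝ) * R ^ 2 := by positivity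
  have h2 := fL_pos (by linarith : 0 ≤ 1 + (k:ℝ) * R ^ 2)
  have : 0 ≤ (2 + k * R ^ 2) * fL (1 + k * R ^ 2) := by positivity
  linarith

lemma disp_bound {p q : Fin (k + 3) → ℝ} {R ℓ : ℝ} (hp : ‖p‖ ≤ R)
    (hℓ : ℓ ∈ lens p q) (hℓ1 : ℓ ≤ 1) : ‖q - p‖ ≤ cst k R * ℓ := by
  have hℓ0 := lens_nonneg ℓ hℓ
  have hR : 0 ≤ R := (norm_nonneg p).trans hp
  obtain ⟨γ, hγ, h0, h1, he⟩ := hℓ
  have hc1 : ℓ ≤ cst k R * ℓ := by
    have := one_le_cst (k := k) hR
    nlinarith
  have h01 : (1:ℝ) ∈ Icc (0:ℝ) 1 := by simp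
  rw [pi_norm_le_iff_of_nonneg (by linarith)]
  have d1 : |q 1 - p 1| ≤ ℓ := by
    have := disp_1 hγ h01
    rw [h0, h1, ← he] at this
    exact this
  refine forall3 ?_ ?_ ?_ (fun i => ?_)
  · have := disp_0 hγ h01
    rw [h0, h1, ← he] at this
    simpa using this.trans hc1
  · simpa using d1.trans hc1
  · have h2 := disp_2 hγ (ℓ := ℓ) he rfl
    rw [h0, h1] at h2
    have hq : cdot p p ≤ k * R ^ 2 :=
      (cdot_le_norm p).trans (mul_le_mul_of_nonneg_left
        (pow_le_pow_left₀ (norm_nonneg _) hp 2) (Nat.cast_nonneg k))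
    have hq0 := cdot_self_nonneg p
    have hQ0 : 0 ≤ cdot p p + ℓ := by linarith
    have hQ : cdot p p + ℓ ≤ 1 + k * R ^ 2 := by linarith
    have hf := fL_mono hQ0 hQ
    have hf0 := fL_pos hQ0
    have h3 : (1 + (cdot p p + ℓ)) * fL (cdot p p + ℓ) ≤ (2 + k * R ^ 2) * fL (1 + k * R ^ 2) :=
      mul_le_mul (by linarith) hf hf0.le (by positivity)
    have h4 : |p 0 * (q 1 - p 1)| ≤ R * ℓ := by
      rw [abs_mul]
      exact mul_le_mul ((abs_coord_le p 0).trans hp) d1 (abs_nonneg _) hR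
    have h5 : |q 2 - p 2| ≤ |(q 2 - p 2) - p 0 * (q 1 - p 1)| + |p 0 * (q 1 - p 1)| := by
      have := abs_add_le ((q 2 - p 2) - p 0 * (q 1 - p 1)) (p 0 * (q 1 - p 1))
      simpa using this
    have h6 : ℓ * ((1 + (cdot p p + ℓ)) * fL (cdot p p + ℓ) + ℓ) ≤
        ℓ * ((2 + k * R ^ 2) * fL (1 + k * R ^ 2) + 1) :=
      mul_le_mul_of_nonneg_left (by linarith) hℓ0
    have h7 : |q 2 - p 2| ≤ cst k R * ℓ := by
      unfold cst
      nlinarith
    simpa using h7
  · have := disp_u hγ i h01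
    rw [h0, h1, ← he] at this
    simpa using this.trans hc1

lemma rdist_bound {p q : Fin (k + 3) → ℝ} {R δ : ℝ} (hp : ‖p‖ ≤ R)
    (h : rdist (G k) p q < δ) (hδ : δ ≤ 1) : ‖q - p‖ ≤ cst k R * δ := by
  obtain ⟨ℓ, hℓ, hlt⟩ := exists_lt_of_csInf_lt (lens_nonempty p q) h
  have hR : 0 ≤ R := (norm_nonneg p).trans hp
  refine (disp_bound hp hℓ (by linarith)).trans ?_
  exact mul_le_mul_of_nonneg_left hlt.le (by linarith [one_le_cst (k := k) hR])

/-- constant in the upper bound -/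
def cup (k : ℕ) (R : ℝ) : ℝ := k + 4 * (k * R ^ 2 * k) + 3 * 2 + (1 + R) ^ 2

lemma bform_le {p v : Fin (k + 3) → ℝ} {R : ℝ} (hp : ‖p‖ ≤ R) :
    bform p v v ≤ cup k R * ‖v‖ ^ 2 := by
  have hR : 0 ≤ R := (norm_nonneg p).trans hp
  have hq0 := cdot_self_nonneg p
  have hq : cdot p p ≤ k * R ^ 2 :=
      (cdot_le_norm p).trans (mul_le_mul_of_nonneg_left
        (pow_le_pow_left₀ (norm_nonneg _) hp 2) (Nat.cast_nonneg k))
  have hv := cdot_le_norm v
  have hv0 := cdot_self_nonneg v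
  have h1 : cdot p v * cdot p v ≤ k * R ^ 2 * (k * ‖v‖ ^ 2) := by
    have := cdot_sq_le p v
    rw [pow_two] at this
    refine this.trans (mul_le_mul hq hv hv0 (by positivity))
  have sq_le : ∀ i, v i * v i ≤ ‖v‖ ^ 2 := by
    intro i
    have h := abs_coord_le v i
    have h2 := mul_le_mul h h (abs_nonneg _) (norm_nonneg _)
    rw [abs_mul_abs_self] at h2
    rw [pow_two]; exact h2
  have hP : fP (cdot p p) ≤ 3 := by
    unfold fP
    have h2 : 1 / fL (cdot p p) ≤ 1 := (div_le_one (fL_pos hq0)).mpr (one_le_fL hq0)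
    refine (Real.exp_le_exp.mpr h2).trans ?_
    have := Real.exp_one_lt_d9
    linarith
  have hS : fS (cdot p p) ≤ 1 := by
    unfold fS
    have h2 : 1 ≤ (1 + cdot p p) * fL (cdot p p) := by
      have := one_le_fL hq0
      nlinarith
    rw [div_le_one (by positivity)]
    nlinarith
  have hθ : |theta p v| ≤ (1 + R) * ‖v‖ := by
    unfold theta
    have h2 : |v 2 - p 0 * v 1| ≤ |v 2| + |p 0 * v 1| := abs_sub _ _
    rw [abs_mul] at h2
    have h3 := mul_le_mul ((abs_coord_le p 0).trans hp) (abs_coord_le v 1) (abs_nonneg _) hR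
    have h4 := abs_coord_le v 2
    nlinarith
  have hθ2 : theta p v * theta p v ≤ (1 + R) ^ 2 * ‖v‖ ^ 2 := by
    have h2 := mul_le_mul hθ hθ (abs_nonneg _) (by positivity)
    rw [abs_mul_abs_self] at h2
    nlinarith
  have hθ0 := mul_self_nonneg (theta p v)
  have a1 : fP (cdot p p) * (v 0 * v 0 + v 1 * v 1) ≤ 3 * (2 * ‖v‖ ^ 2) :=
    mul_le_mul hP (by linarith [sq_le 0, sq_le 1])
      (add_nonneg (mul_self_nonneg _) (mul_self_nonneg _)) (by norm_num)
  have a2 : fS (cdot p p) * (theta p v * theta p v) ≤ 1 * ((1 + R) ^ 2 * ‖v‖ ^ 2) :=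
    mul_le_mul hS hθ2 hθ0 (by norm_num)
  unfold bform cup
  nlinarith

theorem complete (k : ℕ) : IsCompleteMetric (G k) := by
  intro s hs
  obtain ⟨N0, hN0⟩ := hs 1 one_pos
  set R : ℝ := ‖s N0‖ + cst k ‖s N0‖ with hR
  have hR0 : 0 ≤ R := by
    have := one_le_cst (k := k) (norm_nonneg (s N0))
    have := norm_nonneg (s N0)
    linarith
  have hbd : ∀ a ≥ N0, ‖s a‖ ≤ R := by
    intro a ha
    have h1 := rdist_bound (le_refl ‖s N0‖) (hN0 N0 le_rfl a ha) le_rfl
    have h2 : ‖s a‖ ≤ ‖s N0‖ + ‖s a - s N0‖ := by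
      have := norm_add_le (s N0) (s a - s N0)
      simpa using this
    linarith
  have hC := one_le_cst (k := k) hR0
  have hcauchy : CauchySeq s := by
    rw [Metric.cauchySeq_iff]
    intro ε hε
    set δ : ℝ := min 1 (ε / (2 * cst k R)) with hδ
    have hδ0 : 0 < δ := lt_min one_pos (by positivity)
    obtain ⟨N1, hN1⟩ := hs δ hδ0
    refine ⟨max N0 N1, fun a ha b hb => ?_⟩
    have h1 := rdist_bound (hbd a (le_trans (le_max_left _ _) ha))
      (hN1 a (le_trans (le_max_right _ _) ha) b (le_trans (le_max_right _ _) hb)) (min_le_left _ _)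
    rw [dist_comm, dist_eq_norm]
    refine lt_of_le_of_lt h1 ?_
    have h2 : cst k R * δ ≤ cst k R * (ε / (2 * cst k R)) :=
      mul_le_mul_of_nonneg_left (min_le_right _ _) (by linarith)
    have h3 : cst k R * (ε / (2 * cst k R)) = ε / 2 := by
      field_simp
    linarith
  obtain ⟨p, hp⟩ := cauchySeq_tendsto_of_complete hcauchy
  refine ⟨p, ?_⟩
  have hR' : 0 ≤ R + ‖p‖ := by positivity
  set M : ℝ := Real.sqrt (cup k (R + ‖p‖)) with hM
  have hup : ∀ a ≥ N0, rdist (G k) (s a) p ≤ M * ‖p - s a‖ := by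
    intro a ha
    have e1 : p = s a + (p - s a) := by abel
    conv_lhs => rw [e1]
    apply rdist_le_line
    intro t ht
    have hn : ‖s a + t • (p - s a)‖ ≤ R + ‖p‖ := by
      have e2 : s a + t • (p - s a) = (1 - t) • s a + t • p := by
        rw [smul_sub, sub_smul, one_smul]; abel
      rw [e2]
      refine (norm_add_le _ _).trans ?_
      rw [norm_smul, norm_smul, Real.norm_of_nonneg ht.1, Real.norm_of_nonneg (by linarith [ht.2])]
      have h1 := hbd a ha
      have h2 := norm_nonneg (s a)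
      have h3 := norm_nonneg p
      nlinarith [ht.1, ht.2]
    unfold spd
    have hb := bform_le (v := p - s a) hn
    refine (Real.sqrt_le_sqrt hb).trans ?_
    rw [Real.sqrt_mul' _ (by positivity), Real.sqrt_sq (norm_nonneg _)]
  have hlim : Tendsto (fun a => M * ‖p - s a‖) atTop (𝓝 0) := by
    have h1 : Tendsto (fun a => p - s a) atTop (𝓝 (p - p)) := tendsto_const_nhds.sub hp
    rw [sub_self] at h1
    have h2 := (h1.norm).const_mul M
    simpa using h2
  refine squeeze_zero' ?_ ?_ hlim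
  · exact Eventually.of_forall fun a => rdist_nonneg _ _
  · filter_upwards [eventually_ge_atTop N0] with a ha using hup a ha

end

end Pool.Agent.Helper49.Ric
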