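import Mathlib

/-!
# Riemannian metrics on `ℝⁿ` in global coordinates

Basic definitions: partial derivatives, Christoffel symbols, Ricci tensor, length of `C¹` curves,
Riemannian distance, metric completeness.
-/

namespace Pool.Agent.Helper49.Ric

open scoped ContDiff
open Filter Topology

noncomputable section

variable {n : ℕ}

/-- The `i`-th partial derivative of a real function on `ℝⁿ` (derivative along the line
`t ↦ p + t eᵢ`). -/
def pd (i : Fin n) (F : (Fin n → ℝ) → ℝ) (p : Fin n → ℝ) : ℝ :=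
  lineDeriv ℝ F p (Pi.single i 1)

/-- A smooth Riemannian metric on the manifold `ℝⁿ`, written in the global coordinates as a field
of symmetric positive definite matrices with smooth entries. -/
structure IsRiemannianMetric (G : (Fin n → ℝ) → Matrix (Fin n) (Fin n) ℝ) : Prop where
  smooth : ∀ i j, ContDiff ℝ ∞ (fun p => G p i j)
  symm : ∀ p i j, G p i j = G p j i
  pos : ∀ p v : Fin n → ℝ, v ≠ 0 → 0 < ∑ i, ∑ j, G p i j * v i * v j

/-- The Christoffel symbol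
`Γᵐᵢⱼ = (1/2) Σₗ gᵐˡ (∂ᵢ gⱼₗ + ∂ⱼ gᵢₗ - ∂ₗ gᵢⱼ)` of the metric `G`. -/
def christoffel (G : (Fin n → ℝ) → Matrix (Fin n) (Fin n) ℝ) (m i j : Fin n)
    (p : Fin n → ℝ) : ℝ :=
  (1 / 2) * ∑ l, (G p)⁻¹ m l *
    (pd i (fun q => G q j l) p + pd j (fun q => G q i l) p - pd l (fun q => G q i j) p)

/-- The Ricci tensor
`Rᵢⱼ = Σₘ (∂ₘ Γᵐᵢⱼ - ∂ⱼ Γᵐᵢₘ) + Σₘₗ (Γᵐₘₗ Γˡᵢⱼ - Γᵐⱼₗ Γˡᵢₘ)` of the metric `G`. -/
def ricci (G : (Fin n → ℝ) → Matrix (Fin n) (Fin n) ℝ) (i j : Fin n) (p : Fin n → ℝ) : ℝ :=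
  ∑ m, (pd m (christoffel G m i j) p - pd j (christoffel G m i m) p
    + ∑ l, (christoffel G m m l p * christoffel G l i j p
        - christoffel G m j l p * christoffel G l i m p))

/-- The length `∫₀¹ √(g(γ', γ')) dt` of a curve on `[0,1]`. -/
def curveLength (G : (Fin n → ℝ) → Matrix (Fin n) (Fin n) ℝ) (γ : ℝ → Fin n → ℝ) : ℝ :=
  ∫ t in (0 : ℝ)..1, Real.sqrt (∑ i, ∑ j, G (γ t) i j * deriv γ t i * deriv γ t j)

/-- The Riemannian distance: infimum of the lengths of `C¹` curves from `p` to `q`. -/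
def rdist (G : (Fin n → ℝ) → Matrix (Fin n) (Fin n) ℝ) (p q : Fin n → ℝ) : ℝ :=
  sInf {ℓ : ℝ | ∃ γ : ℝ → Fin n → ℝ, ContDiff ℝ 1 γ ∧ γ 0 = p ∧ γ 1 = q ∧ ℓ = curveLength G γ}

/-- Completeness of the Riemannian distance: every Cauchy sequence converges. -/
def IsCompleteMetric (G : (Fin n → ℝ) → Matrix (Fin n) (Fin n) ℝ) : Prop :=
  ∀ s : ℕ → Fin n → ℝ,
    (∀ ε > 0, ∃ N, ∀ a ≥ N, ∀ b ≥ N, rdist G (s a) (s b) < ε) →
    ∃ p, Tendsto (fun a => rdist G (s a) p) atTop (𝓝 0)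

/-- Nonnegative Ricci curvature. -/
def NonnegRicci (G : (Fin n → ℝ) → Matrix (Fin n) (Fin n) ℝ) : Prop :=
  ∀ p v : Fin n → ℝ, 0 ≤ ∑ i, ∑ j, ricci G i j p * v i * v j

end

end Pool.Agent.Helper49.Ric
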