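import Pool.Agent.Helper49.Ric.Gamma

/-! Directional derivatives of the metric and of the Christoffel map. -/

namespace Pool.Agent.Helper49.Ric

set_option linter.unusedSimpArgs false

open scoped ContDiff
open Finset

noncomputable section

variable {k : ℕ}

section lines

variable (p t v w : Fin (k + 3) → ℝ)

lemma hd_coord (i : Fin (k + 3)) : HasDerivAt (fun s : ℝ => (p + s • t) i) (t i) 0 := by
  have : HasDerivAt (fun s : ℝ => p i + s * t i) (1 * t i) 0 :=
    ((hasDerivAt_id (0:ℝ)).mul_const (t i)).const_add (p i)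
  simpa using this

lemma hd_cdot : HasDerivAt (fun s : ℝ => cdot (p + s • t) v) (cdot t v) 0 := by
  have e : (fun s : ℝ => cdot (p + s • t) v) = fun s : ℝ => cdot p v + s * cdot t v := by
    funext s; rw [cdot_add_left, cdot_smul_left]
  rw [e]
  have : HasDerivAt (fun s : ℝ => cdot p v + s * cdot t v) (1 * cdot t v) 0 :=
    ((hasDerivAt_id (0:ℝ)).mul_const (cdot t v)).const_add (cdot p v)
  simpa using this

lemma hd_q : HasDerivAt (fun s : ℝ => cdot (p + s • t) (p + s • t)) (2 * cdot p t) 0 := by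
  have e : (fun s : ℝ => cdot (p + s • t) (p + s • t)) =
      fun s : ℝ => cdot p p + s * (2 * cdot p t) + s ^ 2 * cdot t t := by
    funext s
    rw [cdot_add_left, cdot_add_right, cdot_add_right, cdot_smul_left, cdot_smul_right,
      cdot_smul_right, cdot_smul_left, cdot_comm t p]
    ring
  rw [e]
  have h1 : HasDerivAt (fun s : ℝ => cdot p p + s * (2 * cdot p t)) (1 * (2 * cdot p t)) 0 :=
    ((hasDerivAt_id (0:ℝ)).mul_const _).const_add (cdot p p)
  have h2 : HasDerivAt (fun s : ℝ => s ^ 2 * cdot t t) ((2 : ℕ) * (0:ℝ) ^ 1 * cdot t t) 0 :=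
    (hasDerivAt_pow 2 (0:ℝ)).mul_const _
  refine (h1.fun_add h2).congr_deriv ?_
  simp

lemma hd_theta : HasDerivAt (fun s : ℝ => theta (p + s • t) v) (-(t 0 * v 1)) 0 := by
  unfold theta
  exact ((hd_coord p t 0).mul_const (v 1)).const_sub (v 2)

lemma hd_f {f f' : ℝ → ℝ} (h : ∀ q, 0 ≤ q → HasDerivAt f (f' q) q) :
    HasDerivAt (fun s : ℝ => f (cdot (p + s • t) (p + s • t)))
      (f' (cdot p p) * (2 * cdot p t)) 0 := by
  have h1 := h (cdot p p) (cdot_self_nonneg p)
  have h2 := hd_q p t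
  have h3 : HasDerivAt f (f' (cdot p p)) (cdot (p + (0:ℝ) • t) (p + (0:ℝ) • t)) := by
    simpa using h1
  exact h3.comp (0:ℝ) h2

end lines

/-- abbreviation: derivative of `q` -/
def dq (p t : Fin (k + 3) → ℝ) : ℝ := 2 * cdot p t

def dkap (p t v w : Fin (k + 3) → ℝ) : ℝ :=
  - ((fa' (cdot p p) + fa (cdot p p) ^ 2) * fP (cdot p p) * dq p t * (v 0 * w 0 + v 1 * w 1))
    - (fb' (cdot p p) + fb (cdot p p) ^ 2) * fS (cdot p p) * dq p t * (theta p v * theta p w)
    + fb (cdot p p) * fS (cdot p p) * (t 0 * (v 1 * theta p w + theta p v * w 1))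

def dgam1 (p t v w : Fin (k + 3) → ℝ) : ℝ :=
  fa' (cdot p p) * dq p t * (cdot p v * w 0 + cdot p w * v 0)
    + fa (cdot p p) * (cdot t v * w 0 + cdot t w * v 0)
    + (1 / 2) * (fS (cdot p p) / fP (cdot p p)) *
      ((fb (cdot p p) - fa (cdot p p)) * dq p t * (v 1 * theta p w + w 1 * theta p v)
        - t 0 * (2 * (v 1 * w 1)))

def dgam2 (p t v w : Fin (k + 3) → ℝ) : ℝ :=
  fa' (cdot p p) * dq p t * (cdot p v * w 1 + cdot p w * v 1)
    + fa (cdot p p) * (cdot t v * w 1 + cdot t w * v 1)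
    - (1 / 2) * (fS (cdot p p) / fP (cdot p p)) *
      ((fb (cdot p p) - fa (cdot p p)) * dq p t * (v 0 * theta p w + w 0 * theta p v)
        - t 0 * (v 0 * w 1 + w 0 * v 1))

def dgam3 (p t v w : Fin (k + 3) → ℝ) : ℝ :=
  fb' (cdot p p) * dq p t * (cdot p v * theta p w + cdot p w * theta p v)
    + fb (cdot p p) * (cdot t v * theta p w + cdot t w * theta p v
        - t 0 * (cdot p v * w 1 + cdot p w * v 1))
    + t 0 * gam2 p v w + p 0 * dgam2 p t v w

/-- derivative of the Christoffel map in the direction `t` -/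
def dgam (p t v w : Fin (k + 3) → ℝ) : Fin (k + 3) → ℝ :=
  mk3 (dgam1 p t v w) (dgam2 p t v w) (dgam3 p t v w)
    (fun i => t (uix i) * (fm (cdot p p) * kap p v w)
      + p (uix i) * (-4 * fm (cdot p p) ^ 2 * dq p t * kap p v w + fm (cdot p p) * dkap p t v w))

variable (p t v w : Fin (k + 3) → ℝ)

lemma hasLine_bform : HasLineDerivAt ℝ (fun p => bform p v w) (dB p t v w) p t := by
  unfold HasLineDerivAt
  have hP := hd_f p t (f := fP) (f' := fun q => fa q * fP q) (fun q hq => hasDerivAt_fP hq)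
  have hS := hd_f p t (f := fS) (f' := fun q => fb q * fS q) (fun q hq => hasDerivAt_fS hq)
  have h1 := ((hd_cdot p t v).fun_mul (hd_cdot p t w)).const_mul 4
  have h2 := hP.mul_const (v 0 * w 0 + v 1 * w 1)
  have h3 := hS.fun_mul ((hd_theta p t v).fun_mul (hd_theta p t w))
  have h := (((h1.const_add (cdot v w)).fun_add h2).fun_add h3)
  refine h.congr_deriv ?_
  simp only [zero_smul, add_zero]
  unfold dB
  ring

lemma hasLine_kap : HasDerivAt (fun s : ℝ => kap (p + s • t) v w) (dkap p t v w) 0 := by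
  have hP := hd_f p t (f := fP) (f' := fun q => fa q * fP q) (fun q hq => hasDerivAt_fP hq)
  have hS := hd_f p t (f := fS) (f' := fun q => fb q * fS q) (fun q hq => hasDerivAt_fS hq)
  have ha := hd_f p t (f := fa) (f' := fa') (fun q hq => hasDerivAt_fa hq)
  have hb := hd_f p t (f := fb) (f' := fb') (fun q hq => hasDerivAt_fb hq)
  have h2 := (ha.fun_mul hP).mul_const (v 0 * w 0 + v 1 * w 1)
  have h3 := (hb.fun_mul hS).fun_mul ((hd_theta p t v).fun_mul (hd_theta p t w))
  have h := (h2.const_sub (4 * cdot v w)).fun_sub h3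
  refine h.congr_deriv ?_
  simp only [zero_smul, add_zero]
  unfold dkap dq
  ring

lemma hasLine_R : HasDerivAt (fun s : ℝ => fS (cdot (p + s • t) (p + s • t)) /
      fP (cdot (p + s • t) (p + s • t)))
    ((fb (cdot p p) - fa (cdot p p)) * dq p t * (fS (cdot p p) / fP (cdot p p))) 0 := by
  have hP := hd_f p t (f := fP) (f' := fun q => fa q * fP q) (fun q hq => hasDerivAt_fP hq)
  have hS := hd_f p t (f := fS) (f' := fun q => fb q * fS q) (fun q hq => hasDerivAt_fS hq)
  have hp := (fP_pos (cdot p p)).ne'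
  have h := hS.fun_div hP (by simpa using hp)
  refine h.congr_deriv ?_
  simp only [zero_smul, add_zero]
  unfold dq
  field_simp

lemma hasLine_gam1 : HasDerivAt (fun s : ℝ => gam1 (p + s • t) v w) (dgam1 p t v w) 0 := by
  have ha := hd_f p t (f := fa) (f' := fa') (fun q hq => hasDerivAt_fa hq)
  have hR := hasLine_R p t
  have h1 := ha.fun_mul (((hd_cdot p t v).mul_const (w 0)).fun_add ((hd_cdot p t w).mul_const (v 0)))
  have h2 := (hR.const_mul (1/2)).fun_mul
    (((hd_theta p t w).const_mul (v 1)).fun_add ((hd_theta p t v).const_mul (w 1)))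
  have h := h1.fun_add h2
  refine h.congr_deriv ?_
  simp only [zero_smul, add_zero, dgam1, dq]
  ring

lemma hasLine_gam2 : HasDerivAt (fun s : ℝ => gam2 (p + s • t) v w) (dgam2 p t v w) 0 := by
  have ha := hd_f p t (f := fa) (f' := fa') (fun q hq => hasDerivAt_fa hq)
  have hR := hasLine_R p t
  have h1 := ha.fun_mul (((hd_cdot p t v).mul_const (w 1)).fun_add ((hd_cdot p t w).mul_const (v 1)))
  have h2 := (hR.const_mul (1/2)).fun_mul
    (((hd_theta p t w).const_mul (v 0)).fun_add ((hd_theta p t v).const_mul (w 0)))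
  have h := h1.fun_sub h2
  refine h.congr_deriv ?_
  simp only [zero_smul, add_zero, dgam2, dq]
  ring

lemma hasLine_gam3 : HasDerivAt (fun s : ℝ => gam3 (p + s • t) v w) (dgam3 p t v w) 0 := by
  have hb := hd_f p t (f := fb) (f' := fb') (fun q hq => hasDerivAt_fb hq)
  have h1 := hb.fun_mul (((hd_cdot p t v).fun_mul (hd_theta p t w)).fun_add
    ((hd_cdot p t w).fun_mul (hd_theta p t v)))
  have h2 := (hd_coord p t 0).fun_mul (hasLine_gam2 p t v w)
  have h := (h1.sub_const ((1/2) * (v 0 * w 1 + v 1 * w 0))).fun_add h2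
  refine h.congr_deriv ?_
  simp only [zero_smul, add_zero, dgam3, dq]
  ring

lemma hasLine_gamu (i : Fin k) :
    HasDerivAt (fun s : ℝ => gam (p + s • t) v w (uix i)) (dgam p t v w (uix i)) 0 := by
  have hm := hd_f p t (f := fm) (f' := fun q => -4 * fm q ^ 2) (fun q hq => hasDerivAt_fm hq)
  have h := (hd_coord p t (uix i)).fun_mul (hm.fun_mul (hasLine_kap p t v w))
  refine h.congr_deriv ?_
  simp only [zero_smul, add_zero, dgam, mk3_u]
  unfold dq
  ring

lemma hasLine_gam (r : Fin (k + 3)) :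
    HasLineDerivAt ℝ (fun p => gam p v w r) (dgam p t v w r) p t := by
  unfold HasLineDerivAt
  refine Fin.cases ?_ (fun r => ?_) r
  · exact hasLine_gam1 p t v w
  refine Fin.cases ?_ (fun r => ?_) r
  · exact hasLine_gam2 p t v w
  refine Fin.cases ?_ (fun r => ?_) r
  · exact hasLine_gam3 p t v w
  exact hasLine_gamu p t v w r

end

end Pool.Agent.Helper49.Ric
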