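import Mathlib
import Pool.Agent.Helper81.Heis.HighPass
import Pool.Agent.Helper81.Heis.Box

/-! The discrete Heisenberg inequality with values in a real inner product space
(adapted from the Euclidean version). -/

set_option autoImplicit false

namespace Pool.Agent.Helper49.Ric

open Finset Pool.Agent.Helper81.Heis

variable {E : Type*} [NormedAddCommGroup E] [InnerProductSpace ℝ E]

/-- A finite family in a real inner product space is isometric to one in a Euclidean space. -/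
lemma exists_isometric {P : Type*} [Fintype P] (φ : P → E) :
    ∃ (N : ℕ) (ψ : P → EuclideanSpace ℝ (Fin N)), ∀ p q, ‖ψ p - ψ q‖ = ‖φ p - φ q‖ := by
  classical
  set S : Submodule ℝ E := Submodule.span ℝ (Set.range φ) with hS
  have : FiniteDimensional ℝ S := FiniteDimensional.span_of_finite ℝ (Set.finite_range φ)
  have hmem : ∀ p, φ p ∈ S := fun p => Submodule.subset_span ⟨p, rfl⟩
  refine ⟨Module.finrank ℝ S, fun p => (stdOrthonormalBasis ℝ S).repr ⟨φ p, hmem p⟩, fun p q => ?_⟩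
  rw [← map_sub, LinearIsometryEquiv.norm_map]
  rfl

theorem grid_ineq_E (Q : ℕ) [NeZero Q] (J : ℕ) (φ : Grid Q → E) :
    ∑ j ∈ range J, (1 / 4 : ℝ) ^ j * ∑ p : Grid Q, ‖φ ((wE Q)^[4 ^ j] p) - φ p‖ ^ 2 ≤
      27 * (∑ p : Grid Q, ‖φ (uE Q p) - φ p‖ ^ 2 + ∑ p : Grid Q, ‖φ (vE Q p) - φ p‖ ^ 2) := by
  obtain ⟨N, ψ, hψ⟩ := exists_isometric φ
  have h := grid_ineq Q J ψ
  simp only [hψ] at h
  exact h

theorem box_ineq_E (v : ℤ → ℤ → ℤ → E) (C D : ℝ) (c : ℕ → ℝ) (J : ℕ)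
    (hC : ∀ x y z, ‖v x y z‖ ≤ C)
    (hD1 : ∀ x y z, ‖v (x + 1) y z - v x y z‖ ≤ D)
    (hD2 : ∀ x y z, ‖v x (y + 1) (z + x) - v x y z‖ ≤ D)
    (hc : ∀ x y z, ∀ j < J, c j ≤ ‖v x y (z + 4 ^ j) - v x y z‖ ^ 2)
    (n : ℕ) (hn : 0 < n) (hnJ : 4 ^ J ≤ n ^ 2) :
    ∑ j ∈ range J, (1 / 4 : ℝ) ^ j * (c j * (n ^ 2 * (n ^ 2 - 4 ^ j))) ≤
      27 * (2 * D ^ 2 * n ^ 4 + 6 * C ^ 2 * n ^ 3) := by
  classical
  set Q : ℕ := 2 * n ^ 2 + 2 with hQ
  have : NeZero Q := ⟨by omega⟩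
  have hnn : n ≤ n ^ 2 := by nlinarith
  set B := box Q n with hB
  set φ : Grid Q → E := fun p =>
    if p ∈ B then v (p.1.val : ℤ) (p.2.1.val : ℤ) (p.2.2.val : ℤ) else 0 with hφ
  have hC0 : 0 ≤ C := (norm_nonneg _).trans (hC 0 0 0)
  have hφ0 : ∀ p, p ∉ B → φ p = 0 := fun p hp => by simp [hφ, hp]
  have hφ1 : ∀ p, p ∈ B → φ p = v (p.1.val : ℤ) (p.2.1.val : ℤ) (p.2.2.val : ℤ) :=
    fun p hp => by simp [hφ, hp]
  have hφC : ∀ p, ‖φ p‖ ≤ C := by
    intro p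
    by_cases hp : p ∈ B
    · rw [hφ1 p hp]; exact hC _ _ _
    · rw [hφ0 p hp, norm_zero]; exact hC0
  have hBcard : (B.card : ℝ) = n ^ 4 := by
    have : B.card = n * (n * n ^ 2) := by
      rw [hB, Pool.Agent.Helper81.Heis.box, card_product, card_product, card_I Q (by omega), card_I Q (by omega)]
      simp
    rw [this]; push_cast; ring
  have one_val : (1 : ZMod Q).val = 1 := by
    have := ZMod.val_natCast_of_lt (n := Q) (a := 1) (by omega)
    simpa using this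
  -- u
  have hu : ∑ p : Grid Q, ‖φ (uE Q p) - φ p‖ ^ 2 ≤ D ^ 2 * n ^ 4 + 2 * C ^ 2 * n ^ 3 := by
    have h1 := cutoff (uE Q) B φ C D hφ0 hφC (by
      intro p hp hp2
      rw [hφ1 _ hp, hφ1 _ hp2]
      have h := mem_box Q |>.mp hp
      have e : (p.1 + 1).val = p.1.val + 1 := by
        rw [ZMod.val_add_of_lt, one_val]
        rw [one_val]; omega
      show ‖v ((p.1 + 1).val : ℤ) (p.2.1.val : ℤ) (p.2.2.val : ℤ) - _‖ ≤ D
      rw [e]; push_cast
      exact hD1 _ _ _)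
    have h2 : (B.filter (fun p => uE Q p ∉ B)).card ≤ n ^ 3 := by
      have : B.filter (fun p => uE Q p ∉ B) ⊆ I Q (n - 1) n ×ˢ I Q 0 n ×ˢ I Q 0 (n ^ 2) := by
        intro p hp
        rw [mem_filter] at hp
        have h := mem_box Q |>.mp hp.1
        have h' := hp.2
        rw [hB, mem_box] at h'
        have e : (p.1 + 1).val = p.1.val + 1 := by
          rw [ZMod.val_add_of_lt, one_val]
          rw [one_val]; omega
        have h'' : ¬ ((p.1 + 1).val < n ∧ p.2.1.val < n ∧ p.2.2.val < n ^ 2) := h'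
        rw [e] at h''
        simp only [mem_product, mem_I]
        refine ⟨⟨?_, h.1⟩, ⟨Nat.zero_le _, h.2.1⟩, ⟨Nat.zero_le _, h.2.2⟩⟩
        by_contra hcon
        exact h'' ⟨by omega, h.2.1, h.2.2⟩
      refine (card_le_card this).trans ?_
      rw [card_product, card_product, card_I Q (by omega), card_I Q (by omega), card_I Q (by omega)]
      have : n - (n - 1) = 1 := by omega
      rw [this]
      simp
      apply le_of_eq; ring
    have h3 : ((B.filter (fun p => uE Q p ∉ B)).card : ℝ) ≤ n ^ 3 := by exact_mod_cast h2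
    rw [hBcard] at h1
    refine h1.trans ?_
    have : 0 ≤ 2 * C ^ 2 := by positivity
    nlinarith
  -- v
  have hv : ∑ p : Grid Q, ‖φ (vE Q p) - φ p‖ ^ 2 ≤ D ^ 2 * n ^ 4 + 2 * C ^ 2 * (2 * n ^ 3) := by
    have hval : ∀ p ∈ B, (p.2.1 + 1).val = p.2.1.val + 1 ∧ (p.2.2 + p.1).val = p.2.2.val + p.1.val := by
      intro p hp
      have h := mem_box Q |>.mp hp
      constructor
      · rw [ZMod.val_add_of_lt, one_val]
        rw [one_val]; omega
      · rw [ZMod.val_add_of_lt]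
        omega
    have h1 := cutoff (vE Q) B φ C D hφ0 hφC (by
      intro p hp hp2
      rw [hφ1 _ hp, hφ1 _ hp2]
      obtain ⟨e1, e2⟩ := hval p hp
      show ‖v (p.1.val : ℤ) ((p.2.1 + 1).val : ℤ) ((p.2.2 + p.1).val : ℤ) - _‖ ≤ D
      rw [e1, e2]; push_cast
      exact hD2 _ _ _)
    have h2 : (B.filter (fun p => vE Q p ∉ B)).card ≤ 2 * n ^ 3 := by
      have : B.filter (fun p => vE Q p ∉ B) ⊆ (I Q 0 n ×ˢ I Q (n - 1) n ×ˢ I Q 0 (n ^ 2)) ∪
          (I Q 0 n ×ˢ I Q 0 n ×ˢ I Q (n ^ 2 - n) (n ^ 2)) := by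
        intro p hp
        rw [mem_filter] at hp
        have h := mem_box Q |>.mp hp.1
        have h' := hp.2
        obtain ⟨e1, e2⟩ := hval p hp.1
        rw [hB, mem_box] at h'
        have h'' : ¬ (p.1.val < n ∧ (p.2.1 + 1).val < n ∧ (p.2.2 + p.1).val < n ^ 2) := h'
        rw [e1, e2] at h''
        simp only [mem_union, mem_product, mem_I]
        by_cases hy : p.2.1.val + 1 < n
        · right
          refine ⟨⟨Nat.zero_le _, h.1⟩, ⟨Nat.zero_le _, h.2.1⟩, ⟨?_, h.2.2⟩⟩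
          by_contra hcon
          exact h'' ⟨h.1, hy, by omega⟩
        · left
          exact ⟨⟨Nat.zero_le _, h.1⟩, ⟨by omega, h.2.1⟩, ⟨Nat.zero_le _, h.2.2⟩⟩
      refine (card_le_card this).trans ?_
      refine (card_union_le _ _).trans ?_
      rw [card_product, card_product, card_product, card_product, card_I Q (by omega),
        card_I Q (by omega), card_I Q (by omega), card_I Q (by omega)]
      have e1 : n - (n - 1) = 1 := by omega
      have e2 : n ^ 2 - (n ^ 2 - n) = n := by omega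
      rw [e1, e2]
      simp
      apply le_of_eq; ring
    have h3 : ((B.filter (fun p => vE Q p ∉ B)).card : ℝ) ≤ 2 * n ^ 3 := by exact_mod_cast h2
    rw [hBcard] at h1
    refine h1.trans ?_
    have : 0 ≤ 2 * C ^ 2 := by positivity
    nlinarith
  -- w
  have hw : ∀ j < J, c j * (n ^ 2 * (n ^ 2 - 4 ^ j)) ≤
      ∑ p : Grid Q, ‖φ ((wE Q)^[4 ^ j] p) - φ p‖ ^ 2 := by
    intro j hj
    have hjn : 4 ^ j ≤ n ^ 2 := (Nat.pow_le_pow_right (by norm_num) hj.le).trans hnJ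
    have h4j : 0 < 4 ^ j := by positivity
    set S : Finset (Grid Q) := I Q 0 n ×ˢ I Q 0 n ×ˢ I Q 0 (n ^ 2 - 4 ^ j) with hS
    have hScard : (S.card : ℝ) = n ^ 2 * (n ^ 2 - 4 ^ j) := by
      have : S.card = n * (n * (n ^ 2 - 4 ^ j)) := by
        rw [hS, card_product, card_product, card_I Q (by omega), card_I Q (by omega)]
        simp
      rw [this]; push_cast [Nat.cast_sub hjn]; ring
    calc c j * (n ^ 2 * (n ^ 2 - 4 ^ j)) = ∑ p ∈ S, c j := by
          rw [sum_const, nsmul_eq_mul, hScard, mul_comm]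
      _ ≤ ∑ p ∈ S, ‖φ ((wE Q)^[4 ^ j] p) - φ p‖ ^ 2 := by
          refine sum_le_sum fun p hp => ?_
          simp only [hS, mem_product, mem_I] at hp
          obtain ⟨⟨_, p1⟩, ⟨_, p2⟩, ⟨_, p3⟩⟩ := hp
          have hval : ((4 ^ j : ℕ) : ZMod Q).val = 4 ^ j := ZMod.val_natCast_of_lt (by omega)
          have e : (p.2.2 + ((4 ^ j : ℕ) : ZMod Q)).val = p.2.2.val + 4 ^ j := by
            rw [ZMod.val_add_of_lt, hval]
            rw [hval]; omega
          have m1 : p ∈ B := by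
            rw [hB, mem_box]; exact ⟨p1, p2, by omega⟩
          have m2 : (wE Q)^[4 ^ j] p ∈ B := by
            rw [hB, mem_box, wE_iter]
            refine ⟨p1, p2, ?_⟩
            show (p.2.2 + ((4 ^ j : ℕ) : ZMod Q)).val < n ^ 2
            rw [e]; omega
          rw [hφ1 _ m1, hφ1 _ m2, wE_iter]
          show c j ≤ ‖v (p.1.val : ℤ) (p.2.1.val : ℤ) ((p.2.2 + ((4 ^ j : ℕ) : ZMod Q)).val : ℤ) - _‖ ^ 2
          rw [e]; push_cast
          exact hc _ _ _ j hj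
      _ ≤ ∑ p : Grid Q, ‖φ ((wE Q)^[4 ^ j] p) - φ p‖ ^ 2 :=
          sum_le_univ_sum_of_nonneg fun p => by positivity
  have main := grid_ineq_E Q J φ
  have l1 : ∑ j ∈ range J, (1 / 4 : ℝ) ^ j * (c j * (n ^ 2 * (n ^ 2 - 4 ^ j))) ≤
      ∑ j ∈ range J, (1 / 4 : ℝ) ^ j * ∑ p : Grid Q, ‖φ ((wE Q)^[4 ^ j] p) - φ p‖ ^ 2 :=
    sum_le_sum fun j hj => mul_le_mul_of_nonneg_left (hw j (mem_range.mp hj)) (by positivity)
  refine (l1.trans main).trans ?_
  nlinarith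

/-- A function with values in a real inner product space on the discrete Heisenberg group which is Lipschitz in the
horizontal directions cannot satisfy the vertical lower bounds `κ 4^j/(j+1)` at all scales. -/
theorem no_disc_E (F : ℤ → ℤ → ℤ → E) (K κ : ℝ) (hk : 0 < κ)
    (h1 : ∀ x y z, ‖F (x+1) y z - F x y z‖ ≤ K)
    (h2 : ∀ x y z, ‖F x (y+1) (z+x) - F x y z‖ ≤ K)
    (h3 : ∀ x y z (j : ℕ), κ * 4^j/(j+1) ≤ ‖F x y (z+4^j) - F x y z‖^2) : False := by
  -- harmonic divergence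
  have key : ∀ J : ℕ, κ / 8 * ∑ j ∈ range J, (1 / ((j : ℝ) + 1)) ≤ 27 * (8 * K ^ 2 + 1) := by
    intro J
    obtain ⟨v, C, hC, hD1, hD2, hc⟩ := high_pass F K κ hk h1 h2 h3 J
    obtain ⟨n0, hn0⟩ := exists_nat_ge (6 * C ^ 2)
    set n : ℕ := max (n0 + 1) (2 * 4 ^ J) with hn
    have hnpos : 0 < n := lt_of_lt_of_le (Nat.succ_pos _) (le_max_left _ _)
    have hn1 : 2 * 4 ^ J ≤ n := le_max_right _ _
    have hn2 : 6 * C ^ 2 ≤ n := by
      refine hn0.trans ?_
      have : n0 ≤ n := (Nat.le_succ _).trans (le_max_left _ _)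
      exact_mod_cast this
    have hnJ : 4 ^ J ≤ n ^ 2 := by nlinarith
    have hb := box_ineq_E v C (2 * K) (fun j => κ * 4 ^ j / (4 * (j + 1))) J hC hD1 hD2 hc n hnpos hnJ
    have hnR : (0 : ℝ) < n := by exact_mod_cast hnpos
    have hn1R : 2 * 4 ^ J ≤ (n : ℝ) := by exact_mod_cast hn1
    have hn1' : (1 : ℝ) ≤ n := by exact_mod_cast hnpos
    have l : κ / 8 * (∑ j ∈ range J, (1 / ((j : ℝ) + 1))) * n ^ 4 ≤
        ∑ j ∈ range J, (1 / 4 : ℝ) ^ j * ((κ * 4 ^ j / (4 * (j + 1))) * (n ^ 2 * (n ^ 2 - 4 ^ j))) := by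
      rw [mul_sum, sum_mul]
      refine sum_le_sum fun j hj => ?_
      have hjJ : (4 : ℝ) ^ j ≤ 4 ^ J := pow_le_pow_right₀ (by norm_num) (mem_range.mp hj).le
      have h4 : (1 / 4 : ℝ) ^ j * 4 ^ j = 1 := by rw [← mul_pow]; norm_num
      have hj1 : (0 : ℝ) < (j : ℝ) + 1 := by positivity
      have e : (1 / 4 : ℝ) ^ j * ((κ * 4 ^ j / (4 * (j + 1))) * (n ^ 2 * (n ^ 2 - 4 ^ j))) =
          ((1 / 4 : ℝ) ^ j * 4 ^ j) * (κ / (4 * (j + 1)) * (n ^ 2 * (n ^ 2 - 4 ^ j))) := by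
        ring
      rw [e, h4, one_mul]
      have e2 : κ / 8 * (1 / ((j : ℝ) + 1)) * n ^ 4 = κ / (4 * (j + 1)) * (n ^ 2 * (n ^ 2 / 2)) := by
        field_simp
        ring
      rw [e2]
      apply mul_le_mul_of_nonneg_left _ (by positivity)
      apply mul_le_mul_of_nonneg_left _ (by positivity)
      nlinarith
    have hb' := l.trans hb
    have r : 27 * (2 * (2 * K) ^ 2 * (n : ℝ) ^ 4 + 6 * C ^ 2 * n ^ 3) ≤ 27 * (8 * K ^ 2 + 1) * n ^ 4 := by
      have : 6 * C ^ 2 * (n : ℝ) ^ 3 ≤ n ^ 4 := by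
        have := mul_le_mul_of_nonneg_right hn2 (by positivity : (0 : ℝ) ≤ (n : ℝ) ^ 3)
        calc 6 * C ^ 2 * (n : ℝ) ^ 3 ≤ n * n ^ 3 := this
          _ = n ^ 4 := by ring
      nlinarith
    exact le_of_mul_le_mul_right (hb'.trans r) (by positivity)
  have hdiv := Real.tendsto_sum_range_one_div_nat_succ_atTop
  obtain ⟨J, hJ⟩ := (hdiv.eventually_gt_atTop (27 * (8 * K ^ 2 + 1) / (κ / 8))).exists
  have := key J
  rw [div_lt_iff₀ (by positivity)] at hJ
  linarith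

end Pool.Agent.Helper49.Ric
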