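import Pool.Agent.Helper49.Ric.Smooth

/-! Distance estimates for the model metric. -/

namespace Pool.Agent.Helper49.Ric

open scoped ContDiff
open Finset intervalIntegral MeasureTheory Set

noncomputable section

variable {k : ℕ}

/-! ### pointwise bounds -/

/-- speed -/
def spd (p v : Fin (k + 3) → ℝ) : ℝ := Real.sqrt (bform p v v)

lemma spd_nonneg (p v : Fin (k + 3) → ℝ) : 0 ≤ spd p v := Real.sqrt_nonneg _

lemma curveLength_eq (γ : ℝ → Fin (k + 3) → ℝ) :
    curveLength (G k) γ = ∫ t in (0:ℝ)..1, spd (γ t) (deriv γ t) := by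
  unfold curveLength spd
  simp_rw [G_sum]

lemma parts_le (p v : Fin (k + 3) → ℝ) :
    cdot v v ≤ bform p v v ∧ v 0 ^ 2 ≤ bform p v v ∧ v 1 ^ 2 ≤ bform p v v ∧
    (2 * cdot p v) ^ 2 ≤ bform p v v ∧ fS (cdot p p) * theta p v ^ 2 ≤ bform p v v := by
  have h1 := cdot_self_nonneg v
  have h2 := one_le_fP (cdot_self_nonneg p)
  have h3 := fS_pos (cdot_self_nonneg p)
  have h4 := mul_self_nonneg (cdot p v)
  have a0 := mul_self_nonneg (v 0)
  have a1 := mul_self_nonneg (v 1)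
  have h5 := mul_nonneg (by linarith : 0 ≤ fP (cdot p p)) (add_nonneg a0 a1)
  have h6 := mul_nonneg h3.le (mul_self_nonneg (theta p v))
  have h7 : v 0 * v 0 + v 1 * v 1 ≤ fP (cdot p p) * (v 0 * v 0 + v 1 * v 1) := by
    nlinarith
  unfold bform
  refine ⟨by linarith, by nlinarith, by nlinarith, by nlinarith, by nlinarith⟩

lemma abs_le_spd_of_sq {a : ℝ} {p v : Fin (k + 3) → ℝ} (h : a ^ 2 ≤ bform p v v) :
    |a| ≤ spd p v := by
  unfold spd
  exact Real.abs_le_sqrt h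

lemma abs_v0_le (p v : Fin (k + 3) → ℝ) : |v 0| ≤ spd p v := abs_le_spd_of_sq (parts_le p v).2.1
lemma abs_v1_le (p v : Fin (k + 3) → ℝ) : |v 1| ≤ spd p v := abs_le_spd_of_sq (parts_le p v).2.2.1
lemma abs_q_le (p v : Fin (k + 3) → ℝ) : |2 * cdot p v| ≤ spd p v :=
  abs_le_spd_of_sq (parts_le p v).2.2.2.1
lemma abs_u_le (p v : Fin (k + 3) → ℝ) (i : Fin k) : |v (uix i)| ≤ spd p v := by
  apply abs_le_spd_of_sq
  refine le_trans ?_ (parts_le p v).1
  unfold cdot
  have := single_le_sum (f := fun i : Fin k => v (uix i) * v (uix i))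
    (fun i _ => mul_self_nonneg _) (Finset.mem_univ i)
  simpa [pow_two] using this

lemma abs_theta_le (p v : Fin (k + 3) → ℝ) :
    |theta p v| ≤ spd p v * ((1 + cdot p p) * fL (cdot p p)) := by
  have h := (parts_le p v).2.2.2.2
  have hq := cdot_self_nonneg p
  have hL := fL_pos hq
  have hc : 0 < (1 + cdot p p) * fL (cdot p p) := by positivity
  have h1 : (theta p v / ((1 + cdot p p) * fL (cdot p p))) ^ 2 ≤ bform p v v := by
    rw [div_pow]
    unfold fS at h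
    calc theta p v ^ 2 / ((1 + cdot p p) * fL (cdot p p)) ^ 2
        = 1 / ((1 + cdot p p) * fL (cdot p p)) ^ 2 * theta p v ^ 2 := by ring
      _ ≤ _ := h
  have h2 := abs_le_spd_of_sq h1
  rw [abs_div, abs_of_pos hc, div_le_iff₀ hc] at h2
  exact h2

/-! ### integration along curves -/

lemma disp_le {u u' s : ℝ → ℝ} (hu : ∀ t, HasDerivAt u (u' t) t) (hu' : Continuous u')
    (hs : Continuous s) (h : ∀ t ∈ Icc (0:ℝ) 1, |u' t| ≤ s t) {t : ℝ} (ht : t ∈ Icc (0:ℝ) 1) :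
    |u t - u 0| ≤ ∫ x in (0:ℝ)..1, s x := by
  have h1 : ∫ x in (0:ℝ)..t, u' x = u t - u 0 :=
    integral_eq_sub_of_hasDerivAt (fun x _ => hu x) (hu'.intervalIntegrable _ _)
  rw [← h1]
  have h2 : |∫ x in (0:ℝ)..t, u' x| ≤ ∫ x in (0:ℝ)..t, |u' x| :=
    abs_integral_le_integral_abs ht.1
  have h3 : ∫ x in (0:ℝ)..t, |u' x| ≤ ∫ x in (0:ℝ)..t, s x := by
    apply integral_mono_on ht.1 (hu'.abs.intervalIntegrable _ _) (hs.intervalIntegrable _ _)
    intro x hx
    exact h x ⟨hx.1, hx.2.trans ht.2⟩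
  have h4 : ∫ x in (0:ℝ)..t, s x ≤ ∫ x in (0:ℝ)..1, s x := by
    have h5 : ∫ x in (0:ℝ)..1, s x = (∫ x in (0:ℝ)..t, s x) + ∫ x in t..1, s x :=
      (integral_add_adjacent_intervals (hs.intervalIntegrable _ _) (hs.intervalIntegrable _ _)).symm
    have h6 : 0 ≤ ∫ x in t..1, s x := by
      apply integral_nonneg ht.2
      intro x hx
      exact (abs_nonneg _).trans (h x ⟨ht.1.trans hx.1, hx.2⟩)
    linarith
  exact h2.trans (h3.trans h4)

section curve

variable {γ : ℝ → Fin (k + 3) → ℝ} (hγ : ContDiff ℝ 1 γ)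

include hγ

lemma hasDerivAt_curve (t : ℝ) : HasDerivAt γ (deriv γ t) t :=
  ((hγ.differentiable (by norm_num)) t).hasDerivAt

lemma cont_deriv : Continuous (deriv γ) := hγ.continuous_deriv (by norm_num)

lemma hasDerivAt_coord (i : Fin (k + 3)) (t : ℝ) :
    HasDerivAt (fun t => γ t i) (deriv γ t i) t :=
  (hasDerivAt_pi.mp (hasDerivAt_curve hγ t)) i

lemma hasDerivAt_q (t : ℝ) :
    HasDerivAt (fun t => cdot (γ t) (γ t)) (2 * cdot (γ t) (deriv γ t)) t := by
  unfold cdot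
  have h : ∀ i ∈ (univ : Finset (Fin k)), HasDerivAt (fun t => γ t (uix i) * γ t (uix i))
      (deriv γ t (uix i) * γ t (uix i) + γ t (uix i) * deriv γ t (uix i)) t := fun i _ =>
    (hasDerivAt_coord hγ (uix i) t).fun_mul (hasDerivAt_coord hγ (uix i) t)
  refine (HasDerivAt.fun_sum h).congr_deriv ?_
  rw [Finset.mul_sum]
  exact Finset.sum_congr rfl fun i _ => by ring

lemma cont_spd : Continuous (fun t => spd (γ t) (deriv γ t)) := by
  unfold spd
  apply Real.continuous_sqrt.comp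
  have hc := hγ.continuous
  have hd := cont_deriv hγ
  have hci : ∀ i, Continuous (fun t => γ t i) := fun i => (continuous_apply i).comp hc
  have hdi : ∀ i, Continuous (fun t => deriv γ t i) := fun i => (continuous_apply i).comp hd
  have c1 : Continuous (fun t => cdot (deriv γ t) (deriv γ t)) := by
    unfold cdot; exact continuous_finsetSum _ fun i _ => (hdi _).mul (hdi _)
  have c2 : Continuous (fun t => cdot (γ t) (deriv γ t)) := by
    unfold cdot; exact continuous_finsetSum _ fun i _ => (hci _).mul (hdi _)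
  have c3 : Continuous (fun t => fP (cdot (γ t) (γ t))) := contDiff_P.continuous.comp hc
  have c4 : Continuous (fun t => fS (cdot (γ t) (γ t))) := contDiff_S.continuous.comp hc
  have c5 : Continuous (fun t => theta (γ t) (deriv γ t)) := by
    unfold theta; exact (hdi 2).sub ((hci 0).mul (hdi 1))
  unfold bform
  exact ((c1.add (continuous_const.mul (c2.mul c2))).add
    (c3.mul (((hdi 0).mul (hdi 0)).add ((hdi 1).mul (hdi 1))))).add (c4.mul (c5.mul c5))

lemma len_nonneg : 0 ≤ curveLength (G k) γ := by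
  rw [curveLength_eq]
  exact integral_nonneg (by norm_num) fun t _ => spd_nonneg _ _

lemma disp_0 {t : ℝ} (ht : t ∈ Icc (0:ℝ) 1) : |γ t 0 - γ 0 0| ≤ curveLength (G k) γ := by
  rw [curveLength_eq]
  exact disp_le (fun t => hasDerivAt_coord hγ 0 t) ((continuous_apply _).comp (cont_deriv hγ))
    (cont_spd hγ) (fun t _ => abs_v0_le _ _) ht

lemma disp_1 {t : ℝ} (ht : t ∈ Icc (0:ℝ) 1) : |γ t 1 - γ 0 1| ≤ curveLength (G k) γ := by
  rw [curveLength_eq]
  exact disp_le (fun t => hasDerivAt_coord hγ 1 t) ((continuous_apply _).comp (cont_deriv hγ))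
    (cont_spd hγ) (fun t _ => abs_v1_le _ _) ht

lemma disp_u (i : Fin k) {t : ℝ} (ht : t ∈ Icc (0:ℝ) 1) :
    |γ t (uix i) - γ 0 (uix i)| ≤ curveLength (G k) γ := by
  rw [curveLength_eq]
  exact disp_le (fun t => hasDerivAt_coord hγ (uix i) t)
    ((continuous_apply _).comp (cont_deriv hγ))
    (cont_spd hγ) (fun t _ => abs_u_le _ _ _) ht

lemma disp_q {t : ℝ} (ht : t ∈ Icc (0:ℝ) 1) :
    cdot (γ t) (γ t) ≤ cdot (γ 0) (γ 0) + curveLength (G k) γ := by
  have hc := hγ.continuous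
  have hd := cont_deriv hγ
  have h : |cdot (γ t) (γ t) - cdot (γ 0) (γ 0)| ≤ curveLength (G k) γ := by
    rw [curveLength_eq]
    refine disp_le (u := fun t => cdot (γ t) (γ t)) (fun t => hasDerivAt_q hγ t) ?_
      (cont_spd hγ) (fun t _ => abs_q_le _ _) ht
    unfold cdot
    exact continuous_const.mul (continuous_finsetSum _ fun i _ =>
      ((continuous_apply _).comp hc).mul ((continuous_apply _).comp hd))
  have := (abs_le.mp h).2
  linarith

/-- vertical displacement along a curve -/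
lemma disp_2 {ℓ Q : ℝ} (hℓ : ℓ = curveLength (G k) γ) (hQ : Q = cdot (γ 0) (γ 0) + ℓ) :
    |(γ 1 2 - γ 0 2) - γ 0 0 * (γ 1 1 - γ 0 1)| ≤ ℓ * ((1 + Q) * fL Q + ℓ) := by
  have hc := hγ.continuous
  have hd := cont_deriv hγ
  have hci : ∀ i, Continuous (fun t => γ t i) := fun i => (continuous_apply i).comp hc
  have hdi : ∀ i, Continuous (fun t => deriv γ t i) := fun i => (continuous_apply i).comp hd
  have hQ0 : 0 ≤ Q := by
    rw [hQ, hℓ]; exact add_nonneg (cdot_self_nonneg _) (len_nonneg hγ)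
  have h := disp_le (u := fun t => γ t 2 - γ 0 0 * γ t 1)
    (u' := fun t => deriv γ t 2 - γ 0 0 * deriv γ t 1)
    (s := fun t => spd (γ t) (deriv γ t) * ((1 + Q) * fL Q + ℓ))
    (fun t => (hasDerivAt_coord hγ 2 t).fun_sub ((hasDerivAt_coord hγ 1 t).const_mul _))
    ((hdi 2).sub (continuous_const.mul (hdi 1)))
    ((cont_spd hγ).mul continuous_const) (by
      intro t ht
      have e : deriv γ t 2 - γ 0 0 * deriv γ t 1 =
          theta (γ t) (deriv γ t) + (γ t 0 - γ 0 0) * deriv γ t 1 := by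
        unfold theta; ring
      rw [e]
      have s0 := spd_nonneg (γ t) (deriv γ t)
      have hq0 := cdot_self_nonneg (γ t)
      have hqQ : cdot (γ t) (γ t) ≤ Q := by
        rw [hQ, hℓ]; exact disp_q hγ ht
      have hL : fL (cdot (γ t) (γ t)) ≤ fL Q := by
        unfold fL
        have := Real.log_le_log (by linarith : (0:ℝ) < 1 + cdot (γ t) (γ t))
          (by linarith : 1 + cdot (γ t) (γ t) ≤ 1 + Q)
        linarith
      have hL0 := fL_pos hq0
      have t1 : |theta (γ t) (deriv γ t)| ≤ spd (γ t) (deriv γ t) * ((1 + Q) * fL Q) := by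
        refine (abs_theta_le _ _).trans ?_
        apply mul_le_mul_of_nonneg_left _ s0
        exact mul_le_mul (by linarith) hL hL0.le (by linarith)
      have t2 : |(γ t 0 - γ 0 0) * deriv γ t 1| ≤ spd (γ t) (deriv γ t) * ℓ := by
        rw [abs_mul, mul_comm]
        apply mul_le_mul (abs_v1_le _ _) _ (abs_nonneg _) s0
        rw [hℓ]; exact disp_0 hγ ht
      calc |theta (γ t) (deriv γ t) + (γ t 0 - γ 0 0) * deriv γ t 1|
          ≤ _ := abs_add_le _ _
        _ ≤ _ := add_le_add t1 t2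
        _ = _ := by ring) (t := 1) (by simp)
  have e1 : (γ 1 2 - γ 0 2) - γ 0 0 * (γ 1 1 - γ 0 1) =
      (γ 1 2 - γ 0 0 * γ 1 1) - (γ 0 2 - γ 0 0 * γ 0 1) := by ring
  rw [e1]
  refine h.trans (le_of_eq ?_)
  rw [intervalIntegral.integral_mul_const, ← curveLength_eq, hℓ]

end curve

/-! ### the distance -/

/-- the set of lengths -/
def lens (p q : Fin (k + 3) → ℝ) : Set ℝ :=
  {ℓ : ℝ | ∃ γ : ℝ → Fin (k+3) → ℝ, ContDiff ℝ 1 γ ∧ γ 0 = p ∧ γ 1 = q ∧ ℓ = curveLength (G k) γ}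

lemma rdist_eq (p q : Fin (k + 3) → ℝ) : rdist (G k) p q = sInf (lens p q) := rfl

lemma line_contDiff (p v : Fin (k + 3) → ℝ) : ContDiff ℝ 1 (fun t : ℝ => p + t • v) :=
  contDiff_const.add (contDiff_id.smul contDiff_const)

lemma line_deriv (p v : Fin (k + 3) → ℝ) (t : ℝ) : deriv (fun t : ℝ => p + t • v) t = v := by
  have : HasDerivAt (fun t : ℝ => p + t • v) ((1:ℝ) • v) t :=
    ((hasDerivAt_id t).smul_const v).const_add p
  rw [this.deriv, one_smul]

lemma lens_nonempty (p q : Fin (k + 3) → ℝ) : (lens p q).Nonempty :=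
  ⟨_, fun t => p + t • (q - p), line_contDiff _ _, by simp, by simp, rfl⟩

lemma lens_nonneg {p q : Fin (k + 3) → ℝ} : ∀ ℓ ∈ lens p q, 0 ≤ ℓ := by
  rintro ℓ ⟨γ, hγ, _, _, rfl⟩
  exact len_nonneg hγ

lemma lens_bddBelow (p q : Fin (k + 3) → ℝ) : BddBelow (lens p q) := ⟨0, lens_nonneg⟩

theorem rdist_nonneg (p q : Fin (k + 3) → ℝ) : 0 ≤ rdist (G k) p q :=
  Real.sInf_nonneg lens_nonneg

lemma rdist_le_line (p v : Fin (k + 3) → ℝ) {c : ℝ} (h : ∀ t ∈ Icc (0:ℝ) 1, spd (p + t • v) v ≤ c) :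
    rdist (G k) p (p + v) ≤ c := by
  have h1 : curveLength (G k) (fun t : ℝ => p + t • v) ∈ lens p (p + v) :=
    ⟨_, line_contDiff _ _, by simp, by simp, rfl⟩
  refine (csInf_le (lens_bddBelow _ _) h1).trans ?_
  rw [curveLength_eq]
  simp_rw [line_deriv]
  have hcont : Continuous (fun t : ℝ => spd (p + t • v) v) := by
    have := cont_spd (line_contDiff p v)
    simp_rw [line_deriv] at this
    exact this
  calc ∫ t in (0:ℝ)..1, spd (p + t • v) v ≤ ∫ t in (0:ℝ)..1, c := by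
        apply integral_mono_on (by norm_num) (hcont.intervalIntegrable _ _)
          (continuous_const.intervalIntegrable _ _) h
    _ = c := by simp

@[simp] lemma pt_0 (x y z : ℝ) : pt k x y z 0 = x := by simp [pt]
@[simp] lemma pt_1 (x y z : ℝ) : pt k x y z 1 = y := by simp [pt]
@[simp] lemma pt_2 (x y z : ℝ) : pt k x y z 2 = z := by
  simp only [pt, val_two']
  norm_num
@[simp] lemma pt_u (x y z : ℝ) (i : Fin k) : pt k x y z (uix i) = 0 := by
  simp [pt, uix]

lemma fP_zero_lt : Real.sqrt (fP 0) ≤ 2 := by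
  rw [show (2:ℝ) = Real.sqrt 4 by
    rw [show (4:ℝ) = 2 ^ 2 by norm_num]; rw [Real.sqrt_sq (by norm_num)]]
  apply Real.sqrt_le_sqrt
  unfold fP fL
  simp
  have := Real.exp_one_lt_d9
  linarith

theorem step_x (x y z : ℝ) : rdist (G k) (pt k x y z) (pt k (x+1) y z) ≤ 2 := by
  have e1 : pt k (x+1) y z = pt k x y z + e 0 := by
    refine ext3 ?_ ?_ ?_ (fun i => ?_) <;> simp
  rw [e1]
  apply rdist_le_line
  intro t _
  have hq : cdot (pt k x y z + t • (e 0)) (pt k x y z + t • (e 0)) = 0 := by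
    simp [cdot]
  unfold spd bform
  rw [hq]
  simp only [cdot_e0, e0_0, e0_1, theta_e0]
  simpa using fP_zero_lt

theorem step_y (x y z : ℝ) : rdist (G k) (pt k x y z) (pt k x (y+1) (z+x)) ≤ 2 := by
  have e1 : pt k x (y+1) (z+x) = pt k x y z + (e 1 + x • e 2) := by
    refine ext3 ?_ ?_ ?_ (fun i => ?_) <;> simp
  rw [e1]
  apply rdist_le_line
  intro t _
  have hq : cdot (pt k x y z + t • (e 1 + x • e 2)) (pt k x y z + t • (e 1 + x • e 2)) = 0 := by
    simp [cdot]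
  have ht : theta (pt k x y z + t • (e 1 + x • e 2)) (e 1 + x • e 2) = 0 := by
    simp [theta]
  unfold spd bform
  rw [hq, ht]
  simp only [cdot_add_right, cdot_smul_right, cdot_e1, cdot_e2]
  simpa [cdot] using fP_zero_lt

/-- lower bound for the length of curves realising a vertical translation -/
lemma vertical_len {ℓ : ℝ} (hℓ0 : 0 ≤ ℓ) (j : ℕ) (h : (4:ℝ) ^ j ≤ ℓ * ((1 + ℓ) * fL ℓ + ℓ)) :
    (1 / 25) * 4 ^ j / (j + 1) ≤ ℓ ^ 2 := by
  have hj1 : (1:ℝ) ≤ (j:ℝ) + 1 := by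
    have : (0:ℝ) ≤ j := Nat.cast_nonneg j
    linarith
  have h4 : (1:ℝ) ≤ 4 ^ j := one_le_pow₀ (by norm_num)
  rw [div_le_iff₀ (by linarith)]
  rcases lt_or_ge ℓ 1 with h1 | h1
  · have hL : fL ℓ ≤ 2 := by
      unfold fL
      have h2 : Real.log (1 + ℓ) ≤ (1 + ℓ) - 1 := Real.log_le_sub_one_of_pos (by linarith)
      linarith
    have hL0 := fL_pos hℓ0
    have h3 : (4:ℝ) ^ j ≤ 5 * ℓ := by
      refine h.trans ?_
      have : (1 + ℓ) * fL ℓ ≤ 2 * 2 := mul_le_mul (by linarith) hL hL0.le (by norm_num)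
      nlinarith
    have h5 : (4:ℝ)^j ≤ (4:ℝ)^j * 4^j := by nlinarith
    have h6 : (4:ℝ)^j * 4^j ≤ (5 * ℓ) * (5 * ℓ) := mul_le_mul h3 h3 (by positivity) (by linarith)
    have h7 : ℓ ^ 2 ≤ ℓ ^ 2 * (j + 1) := by nlinarith [sq_nonneg ℓ]
    nlinarith
  · rcases le_or_gt (2 ^ j) ℓ with h2 | h2
    · have h3 : ((2:ℝ) ^ j) * 2 ^ j ≤ ℓ * ℓ := mul_le_mul h2 h2 (by positivity) hℓ0
      have h5 : ((2:ℝ) ^ j) * 2 ^ j = 4 ^ j := by rw [← mul_pow]; norm_num
      have h7 : ℓ ^ 2 ≤ ℓ ^ 2 * (j + 1) := by nlinarith [sq_nonneg ℓ]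
      nlinarith
    · have hL : fL ℓ ≤ 2 * (j + 1) := by
        unfold fL
        have h3 : Real.log (1 + ℓ) ≤ Real.log (2 ^ (j + 1)) := by
          apply Real.log_le_log (by linarith)
          have : (1:ℝ) ≤ 2 ^ j := one_le_pow₀ (by norm_num)
          rw [pow_succ]; linarith
        have h5 : Real.log (2 ^ (j + 1)) = (j + 1) * Real.log 2 := by
          rw [Real.log_pow]; push_cast; ring
        have h6 : Real.log 2 ≤ 1 := by
          have := Real.log_two_lt_d9; linarith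
        have h8 : ((j:ℝ) + 1) * Real.log 2 ≤ (j + 1) * 1 := mul_le_mul_of_nonneg_left h6 (by linarith)
        linarith
      have h3 : (1 + ℓ) * fL ℓ ≤ (2 * ℓ) * (2 * (j + 1)) :=
        mul_le_mul (by linarith) hL (fL_pos hℓ0).le (by linarith)
      have h5 : ℓ ≤ ℓ * (j + 1) := by nlinarith
      have h6 : (4:ℝ) ^ j ≤ ℓ * (5 * ℓ * (j + 1)) := by
        refine h.trans (mul_le_mul_of_nonneg_left ?_ hℓ0)
        nlinarith
      have h7 : 0 ≤ ℓ ^ 2 * ((j:ℝ) + 1) := by positivity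
      nlinarith

theorem vertical (k : ℕ) : ∃ κ > 0, ∀ (x y z : ℝ) (j : ℕ),
    κ * 4^j / (j+1) ≤ rdist (G k) (pt k x y z) (pt k x y (z + 4^j)) ^ 2 := by
  refine ⟨1/25, by norm_num, fun x y z j => ?_⟩
  have key : ∀ ℓ ∈ lens (pt k x y z) (pt k x y (z + 4^j)),
      Real.sqrt ((1/25) * 4^j / (j+1)) ≤ ℓ := by
    intro ℓ hℓ
    have hℓ0 := lens_nonneg ℓ hℓ
    obtain ⟨γ, hγ, h0, h1, he⟩ := hℓ
    have h2 := disp_2 hγ (ℓ := ℓ) (Q := ℓ) he (by rw [h0]; simp [cdot])
    rw [h0, h1] at h2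
    simp only [pt_0, pt_1, pt_2] at h2
    have e2 : z + 4 ^ j - z - x * (y - y) = 4 ^ j := by ring
    rw [e2] at h2
    have h3 : (4:ℝ) ^ j ≤ ℓ * ((1 + ℓ) * fL ℓ + ℓ) := (le_abs_self _).trans h2
    have h4 := vertical_len hℓ0 j h3
    rw [Real.sqrt_le_left hℓ0]
    exact h4
  have h1 : Real.sqrt ((1/25) * 4^j / (j+1)) ≤ rdist (G k) (pt k x y z) (pt k x y (z + 4^j)) :=
    le_csInf (lens_nonempty _ _) key
  have h2 := pow_le_pow_left₀ (Real.sqrt_nonneg _) h1 2
  rwa [Real.sq_sqrt (by positivity)] at h2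

end

end Pool.Agent.Helper49.Ric
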