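import Mathlib

/-! One variable functions used in the metric. -/

namespace Pool.Agent.Helper49.Ric

noncomputable section

/-- `L(q) = 1 + log (1+q)`. -/
def fL (q : ℝ) : ℝ := 1 + Real.log (1 + q)

/-- `P(q) = exp (1/L(q))`. -/
def fP (q : ℝ) : ℝ := Real.exp (1 / fL q)

/-- `S(q) = 1/((1+q) L(q))²`. -/
def fS (q : ℝ) : ℝ := 1 / ((1 + q) * fL q) ^ 2

/-- logarithmic derivative of `P` -/
def fa (q : ℝ) : ℝ := -(1 / ((1 + q) * fL q ^ 2))

/-- derivative of `fa` -/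
def fa' (q : ℝ) : ℝ := 1 / ((1 + q) ^ 2 * fL q ^ 2) + 2 / ((1 + q) ^ 2 * fL q ^ 3)

/-- logarithmic derivative of `S` -/
def fb (q : ℝ) : ℝ := -(2 * (1 + 1 / fL q) / (1 + q))

/-- derivative of `fb` -/
def fb' (q : ℝ) : ℝ := 2 * (1 + 1 / fL q + 1 / fL q ^ 2) / (1 + q) ^ 2

/-- `m(q) = 1/(1+4q)`. -/
def fm (q : ℝ) : ℝ := 1 / (1 + 4 * q)

lemma one_le_fL {q : ℝ} (hq : 0 ≤ q) : 1 ≤ fL q := by
  unfold fL
  have := Real.log_nonneg (by linarith : (1:ℝ) ≤ 1 + q)
  linarith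

lemma fL_pos {q : ℝ} (hq : 0 ≤ q) : 0 < fL q := lt_of_lt_of_le one_pos (one_le_fL hq)

lemma fP_pos (q : ℝ) : 0 < fP q := Real.exp_pos _

lemma one_le_fP {q : ℝ} (hq : 0 ≤ q) : 1 ≤ fP q := by
  unfold fP
  apply Real.one_le_exp
  have := fL_pos hq
  positivity

lemma fS_pos {q : ℝ} (hq : 0 ≤ q) : 0 < fS q := by
  unfold fS
  have := fL_pos hq
  positivity

lemma fm_pos {q : ℝ} (hq : 0 ≤ q) : 0 < fm q := by
  unfold fm
  positivity

lemma fm_mul {q : ℝ} (hq : 0 ≤ q) : fm q * (1 + 4 * q) = 1 := by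
  unfold fm
  field_simp

lemma hasDerivAt_fL {q : ℝ} (hq : 0 ≤ q) : HasDerivAt fL (1 / (1 + q)) q := by
  unfold fL
  have h1 : HasDerivAt (fun q : ℝ => 1 + q) 1 q := by
    simpa using (hasDerivAt_id q).const_add 1
  have h2 := h1.log (by positivity : (1 + q : ℝ) ≠ 0)
  exact h2.const_add 1

lemma hasDerivAt_fP {q : ℝ} (hq : 0 ≤ q) : HasDerivAt fP (fa q * fP q) q := by
  have hL := fL_pos hq
  have h1 : HasDerivAt (fun q => 1 / fL q) (-(1 / (1 + q)) / fL q ^ 2) q := by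
    simpa [one_div] using (hasDerivAt_fL hq).fun_inv hL.ne'
  have h2 := h1.exp
  have e : fP = fun q => Real.exp (1 / fL q) := rfl
  rw [e]
  refine h2.congr_deriv ?_
  unfold fa
  field_simp

lemma hasDerivAt_fS {q : ℝ} (hq : 0 ≤ q) : HasDerivAt fS (fb q * fS q) q := by
  have hL := fL_pos hq
  have hq1 : (0:ℝ) < 1 + q := by positivity
  have h0 : HasDerivAt (fun q : ℝ => 1 + q) 1 q := by
    simpa using (hasDerivAt_id q).const_add 1
  have h1 : HasDerivAt (fun q => ((1 + q) * fL q)) (1 * fL q + (1 + q) * (1 / (1 + q))) q :=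
    h0.fun_mul (hasDerivAt_fL hq)
  have h2 := h1.fun_pow 2
  have h3 := h2.fun_inv (by positivity)
  have e : fS = fun i => (((1 + i) * fL i) ^ 2)⁻¹ := by funext i; simp [fS, one_div]
  rw [e]
  refine h3.congr_deriv ?_
  unfold fb
  field_simp
  ring

lemma hasDerivAt_fa {q : ℝ} (hq : 0 ≤ q) : HasDerivAt fa (fa' q) q := by
  have hL := fL_pos hq
  have hq1 : (0:ℝ) < 1 + q := by positivity
  have h0 : HasDerivAt (fun q : ℝ => 1 + q) 1 q := by
    simpa using (hasDerivAt_id q).const_add 1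
  have h1 := h0.fun_mul ((hasDerivAt_fL hq).fun_pow 2)
  have h3 := (h1.fun_inv (by positivity)).fun_neg
  have e : fa = fun i => -((1 + i) * fL i ^ 2)⁻¹ := by funext i; simp [fa, one_div]
  rw [e]
  refine h3.congr_deriv ?_
  unfold fa'
  field_simp
  ring

lemma hasDerivAt_fb {q : ℝ} (hq : 0 ≤ q) : HasDerivAt fb (fb' q) q := by
  have hL := fL_pos hq
  have hq1 : (0:ℝ) < 1 + q := by positivity
  have h0 : HasDerivAt (fun q : ℝ => 1 + q) 1 q := by
    simpa using (hasDerivAt_id q).const_add 1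
  have h1 : HasDerivAt (fun q => 1 / fL q) (-(1 / (1 + q)) / fL q ^ 2) q := by
    simpa [one_div] using (hasDerivAt_fL hq).fun_inv hL.ne'
  have h2 := (((h1.const_add 1).const_mul 2).fun_div h0 (by positivity)).fun_neg
  have e : fb = fun i => -(2 * (1 + 1 / fL i) / (1 + i)) := by funext i; simp [fb]
  rw [e]
  refine h2.congr_deriv ?_
  unfold fb'
  field_simp
  ring

lemma hasDerivAt_fm {q : ℝ} (hq : 0 ≤ q) : HasDerivAt fm (-4 * fm q ^ 2) q := by
  have h0 : HasDerivAt (fun q : ℝ => 1 + 4 * q) 4 q := by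
    simpa using ((hasDerivAt_id q).const_mul 4).const_add 1
  have h3 := (h0.fun_inv (by positivity))
  have e : fm = fun i => (1 + 4 * i)⁻¹ := by funext i; simp [fm, one_div]
  rw [e]
  refine h3.congr_deriv ?_
  field_simp

end

end Pool.Agent.Helper49.Ric
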