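import Pool.Agent.Helper49.Ric.Model

/-! Christoffel symbols of the metric as a bilinear vector valued map. -/

namespace Pool.Agent.Helper49.Ric

set_option linter.unusedSimpArgs false

open scoped ContDiff
open Finset

noncomputable section

variable {k : ℕ}

/-- vector with given components -/
def mk3 (a b c : ℝ) (f : Fin k → ℝ) : Fin (k + 3) → ℝ :=
  Fin.cons a (Fin.cons b (Fin.cons c f))

@[simp] lemma mk3_0 (a b c : ℝ) (f : Fin k → ℝ) : mk3 a b c f 0 = a := rfl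
@[simp] lemma mk3_1 (a b c : ℝ) (f : Fin k → ℝ) : mk3 a b c f 1 = b := rfl
@[simp] lemma mk3_2 (a b c : ℝ) (f : Fin k → ℝ) : mk3 a b c f 2 = c := rfl
@[simp] lemma mk3_u (a b c : ℝ) (f : Fin k → ℝ) (i : Fin k) : mk3 a b c f (uix i) = f i := rfl

lemma sum_split {M : Type*} [AddCommMonoid M] (f : Fin (k + 3) → M) :
    ∑ i, f i = f 0 + (f 1 + (f 2 + ∑ i : Fin k, f (uix i))) := by
  rw [Fin.sum_univ_succ, Fin.sum_univ_succ, Fin.sum_univ_succ]
  rfl

lemma ext3 {v w : Fin (k + 3) → ℝ} (h0 : v 0 = w 0) (h1 : v 1 = w 1) (h2 : v 2 = w 2)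
    (hu : ∀ i : Fin k, v (uix i) = w (uix i)) : v = w := by
  funext i
  refine Fin.cases h0 (fun i => ?_) i
  refine Fin.cases h1 (fun i => ?_) i
  refine Fin.cases h2 (fun i => ?_) i
  exact hu i

/-- the `i`-th basis vector -/
abbrev e (i : Fin (k + 3)) : Fin (k + 3) → ℝ := Pi.single i 1

lemma val_two' : ((2 : Fin (k + 3)) : ℕ) = 2 := by
  change 2 % (k + 3) = 2
  exact Nat.mod_eq_of_lt (by omega)

lemma ne20 : (2 : Fin (k + 3)) ≠ 0 := by
  intro h
  have : (2 : Fin (k+3)).val = (0 : Fin (k+3)).val := by rw [h]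
  rw [val_two'] at this; simp at this

lemma ne21 : (2 : Fin (k + 3)) ≠ 1 := by
  intro h
  have : (2 : Fin (k+3)).val = (1 : Fin (k+3)).val := by rw [h]
  rw [val_two'] at this; simp at this

lemma uix_ne_0 (i : Fin k) : uix i ≠ 0 := Fin.succ_ne_zero _
lemma uix_ne_1 (i : Fin k) : uix i ≠ 1 := by
  intro h
  have : (uix i : Fin (k+3)).val = (1 : Fin (k+3)).val := by rw [h]
  simp [uix] at this
lemma uix_ne_2 (i : Fin k) : uix i ≠ 2 := by
  intro h
  have : (uix i : Fin (k+3)).val = (2 : Fin (k+3)).val := by rw [h]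
  rw [val_two'] at this
  simp [uix] at this

lemma uix_inj {i j : Fin k} : uix i = uix j ↔ i = j := by
  simp [uix]

@[simp] lemma e0_0 : (e 0 : Fin (k+3) → ℝ) 0 = 1 := by simp [e]
@[simp] lemma e0_1 : (e 0 : Fin (k+3) → ℝ) 1 = 0 := by simp [e]
@[simp] lemma e0_2 : (e 0 : Fin (k+3) → ℝ) 2 = 0 := by
  simp [e, Pi.single_apply, ne20]
@[simp] lemma e0_u (i : Fin k) : (e 0 : Fin (k+3) → ℝ) (uix i) = 0 := by
  simp [e, Pi.single_apply, uix_ne_0]
@[simp] lemma e1_0 : (e 1 : Fin (k+3) → ℝ) 0 = 0 := by simp [e, Pi.single_apply]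
@[simp] lemma e1_1 : (e 1 : Fin (k+3) → ℝ) 1 = 1 := by simp [e]
@[simp] lemma e1_2 : (e 1 : Fin (k+3) → ℝ) 2 = 0 := by
  simp [e, Pi.single_apply, ne21]
@[simp] lemma e1_u (i : Fin k) : (e 1 : Fin (k+3) → ℝ) (uix i) = 0 := by
  simp [e, Pi.single_apply, uix_ne_1]
@[simp] lemma e2_0 : (e 2 : Fin (k+3) → ℝ) 0 = 0 := by
  simp [e, Pi.single_apply, ne20.symm]
@[simp] lemma e2_1 : (e 2 : Fin (k+3) → ℝ) 1 = 0 := by
  simp [e, Pi.single_apply, ne21.symm]
@[simp] lemma e2_2 : (e 2 : Fin (k+3) → ℝ) 2 = 1 := by simp [e]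
@[simp] lemma e2_u (i : Fin k) : (e 2 : Fin (k+3) → ℝ) (uix i) = 0 := by
  simp [e, Pi.single_apply, uix_ne_2]
@[simp] lemma eu_0 (i : Fin k) : (e (uix i) : Fin (k+3) → ℝ) 0 = 0 := by
  simp [e, Pi.single_apply, (uix_ne_0 i).symm]
@[simp] lemma eu_1 (i : Fin k) : (e (uix i) : Fin (k+3) → ℝ) 1 = 0 := by
  simp [e, Pi.single_apply, (uix_ne_1 i).symm]
@[simp] lemma eu_2 (i : Fin k) : (e (uix i) : Fin (k+3) → ℝ) 2 = 0 := by
  simp [e, Pi.single_apply, (uix_ne_2 i).symm]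
lemma eu_u (i j : Fin k) : (e (uix i) : Fin (k+3) → ℝ) (uix j) = if j = i then 1 else 0 := by
  simp [e, Pi.single_apply, uix_inj]

@[simp] lemma cdot_e0 (v : Fin (k+3) → ℝ) : cdot v (e 0) = 0 := by simp [cdot]
@[simp] lemma cdot_e1 (v : Fin (k+3) → ℝ) : cdot v (e 1) = 0 := by simp [cdot]
@[simp] lemma cdot_e2 (v : Fin (k+3) → ℝ) : cdot v (e 2) = 0 := by simp [cdot]
@[simp] lemma cdot_eu (v : Fin (k+3) → ℝ) (i : Fin k) : cdot v (e (uix i)) = v (uix i) := by
  simp [cdot, eu_u]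
@[simp] lemma cdot_e0' (v : Fin (k+3) → ℝ) : cdot (e 0) v = 0 := by simp [cdot]
@[simp] lemma cdot_e1' (v : Fin (k+3) → ℝ) : cdot (e 1) v = 0 := by simp [cdot]
@[simp] lemma cdot_e2' (v : Fin (k+3) → ℝ) : cdot (e 2) v = 0 := by simp [cdot]
@[simp] lemma cdot_eu' (v : Fin (k+3) → ℝ) (i : Fin k) : cdot (e (uix i)) v = v (uix i) := by
  simp [cdot, eu_u]

@[simp] lemma theta_e0 (p : Fin (k+3) → ℝ) : theta p (e 0) = 0 := by simp [theta]
@[simp] lemma theta_e1 (p : Fin (k+3) → ℝ) : theta p (e 1) = - p 0 := by simp [theta]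
@[simp] lemma theta_e2 (p : Fin (k+3) → ℝ) : theta p (e 2) = 1 := by simp [theta]
@[simp] lemma theta_eu (p : Fin (k+3) → ℝ) (i : Fin k) : theta p (e (uix i)) = 0 := by
  simp [theta]

lemma theta_add (p v w : Fin (k+3) → ℝ) : theta p (v + w) = theta p v + theta p w := by
  simp [theta]; ring

lemma theta_smul (c : ℝ) (p v : Fin (k+3) → ℝ) : theta p (c • v) = c * theta p v := by
  simp [theta]; ring

@[simp] lemma cdot_mk3 (v : Fin (k+3) → ℝ) (a b c : ℝ) (f : Fin k → ℝ) :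
    cdot v (mk3 a b c f) = ∑ i, v (uix i) * f i := rfl

/-- The `u`-component factor of the Christoffel map. -/
def kap (p v w : Fin (k + 3) → ℝ) : ℝ :=
  4 * cdot v w - fa (cdot p p) * fP (cdot p p) * (v 0 * w 0 + v 1 * w 1)
    - fb (cdot p p) * fS (cdot p p) * (theta p v * theta p w)

def gam1 (p v w : Fin (k + 3) → ℝ) : ℝ :=
  fa (cdot p p) * (cdot p v * w 0 + cdot p w * v 0)
    + (1 / 2) * (fS (cdot p p) / fP (cdot p p)) * (v 1 * theta p w + w 1 * theta p v)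

def gam2 (p v w : Fin (k + 3) → ℝ) : ℝ :=
  fa (cdot p p) * (cdot p v * w 1 + cdot p w * v 1)
    - (1 / 2) * (fS (cdot p p) / fP (cdot p p)) * (v 0 * theta p w + w 0 * theta p v)

def gam3 (p v w : Fin (k + 3) → ℝ) : ℝ :=
  fb (cdot p p) * (cdot p v * theta p w + cdot p w * theta p v)
    - (1 / 2) * (v 0 * w 1 + v 1 * w 0) + p 0 * gam2 p v w

/-- The Christoffel map `Γ(v,w)`. -/
def gam (p v w : Fin (k + 3) → ℝ) : Fin (k + 3) → ℝ :=
  mk3 (gam1 p v w) (gam2 p v w) (gam3 p v w) (fun i => p (uix i) * (fm (cdot p p) * kap p v w))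

lemma gam_comm (p v w : Fin (k + 3) → ℝ) : gam p v w = gam p w v := by
  refine ext3 ?_ ?_ ?_ (fun i => ?_) <;>
  simp only [gam, mk3_0, mk3_1, mk3_2, mk3_u, gam1, gam2, gam3, kap, cdot_comm v w] <;> ring

/-- bilinearity of `gam` -/
def gl (p : Fin (k + 3) → ℝ) :
    (Fin (k + 3) → ℝ) →ₗ[ℝ] (Fin (k + 3) → ℝ) →ₗ[ℝ] (Fin (k + 3) → ℝ) :=
  LinearMap.mk₂ ℝ (gam p)
    (by
      intro a b c
      refine ext3 ?_ ?_ ?_ (fun i => ?_) <;>
      simp [gam, gam1, gam2, gam3, kap, cdot_add_left, cdot_add_right, theta_add] <;> ring)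
    (by
      intro a b c
      refine ext3 ?_ ?_ ?_ (fun i => ?_) <;>
      simp [gam, gam1, gam2, gam3, kap, cdot_smul_left, cdot_smul_right, theta_smul] <;> ring)
    (by
      intro a b c
      refine ext3 ?_ ?_ ?_ (fun i => ?_) <;>
      simp [gam, gam1, gam2, gam3, kap, cdot_add_left, cdot_add_right, theta_add] <;> ring)
    (by
      intro a b c
      refine ext3 ?_ ?_ ?_ (fun i => ?_) <;>
      simp [gam, gam1, gam2, gam3, kap, cdot_smul_left, cdot_smul_right, theta_smul] <;> ring)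

lemma gl_apply (p v w : Fin (k + 3) → ℝ) : gl p v w = gam p v w := rfl

lemma cdot_gam (p v w t : Fin (k + 3) → ℝ) :
    cdot t (gam p v w) = cdot t p * (fm (cdot p p) * kap p v w) := by
  simp only [gam, cdot_mk3]
  unfold cdot
  rw [sum_mul]
  exact sum_congr rfl fun i _ => by ring

/-- directional derivative of the metric -/
def dB (p t v w : Fin (k + 3) → ℝ) : ℝ :=
  4 * (cdot t v * cdot p w + cdot p v * cdot t w)
    + 2 * cdot p t * (fa (cdot p p) * fP (cdot p p) * (v 0 * w 0 + v 1 * w 1)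
        + fb (cdot p p) * fS (cdot p p) * (theta p v * theta p w))
    - fS (cdot p p) * (t 0 * (v 1 * theta p w + theta p v * w 1))

/-- Koszul formula. -/
lemma koszul (p v w t : Fin (k + 3) → ℝ) :
    dB p v w t + dB p w v t - dB p t v w = 2 * bform p (gam p v w) t := by
  have hq := cdot_self_nonneg p
  have hP := (fP_pos (cdot p p)).ne'
  have hm := fm_mul hq
  have e1 : cdot (gam p v w) t = cdot p t * (fm (cdot p p) * kap p v w) := by
    rw [cdot_comm, cdot_gam, cdot_comm t p]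
  have e2 : cdot p (gam p v w) = cdot p p * (fm (cdot p p) * kap p v w) := cdot_gam _ _ _ _
  have e3 : theta p (gam p v w) = fb (cdot p p) * (cdot p v * theta p w + cdot p w * theta p v)
    - (1 / 2) * (v 0 * w 1 + v 1 * w 0) := by
    simp [theta, gam, gam3]
  have e4 : (gam p v w) 0 = gam1 p v w := rfl
  have e5 : (gam p v w) 1 = gam2 p v w := rfl
  unfold bform
  rw [e1, e2, e3, e4, e5]
  have e6 : cdot p t * (fm (cdot p p) * kap p v w) +
      4 * (cdot p p * (fm (cdot p p) * kap p v w) * cdot p t) = cdot p t * kap p v w := by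
    linear_combination (cdot p t * kap p v w) * hm
  have e7 : fP (cdot p p) * (gam1 p v w * t 0 + gam2 p v w * t 1)
     = fP (cdot p p) * (fa (cdot p p) * (cdot p v * w 0 + cdot p w * v 0) * t 0
        + fa (cdot p p) * (cdot p v * w 1 + cdot p w * v 1) * t 1)
       + (1/2) * fS (cdot p p) * ((v 1 * theta p w + w 1 * theta p v) * t 0
         - (v 0 * theta p w + w 0 * theta p v) * t 1) := by
    unfold gam1 gam2
    field_simp
    ring
  rw [e6, e7]
  unfold dB kap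
  rw [cdot_comm w v, cdot_comm t v, cdot_comm t w]
  unfold theta
  ring

end

end Pool.Agent.Helper49.Ric
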