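import Pool.Agent.Helper49.Ric.Defs
import Pool.Agent.Helper49.Ric.Funcs

/-! The metric
`|du|² + 4 (u·du)² + P(|u|²)(dx²+dy²) + S(|u|²)(dz - x dy)²` on `ℝ³⁺ᵏ`,
with coordinates `p 0 = x`, `p 1 = y`, `p 2 = z`, `p (i+3) = uᵢ`. -/

namespace Pool.Agent.Helper49.Ric

open scoped ContDiff
open Finset

noncomputable section

variable {k : ℕ}

/-- Index of the coordinate `uᵢ`. -/
def uix (i : Fin k) : Fin (k + 3) := i.succ.succ.succ

/-- Euclidean scalar product of the `u`-parts. -/
def cdot (v w : Fin (k + 3) → ℝ) : ℝ := ∑ i : Fin k, v (uix i) * w (uix i)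

/-- The form `dz - x dy` at `p`. -/
def theta (p v : Fin (k + 3) → ℝ) : ℝ := v 2 - p 0 * v 1

/-- The metric as a bilinear form at `p`. -/
def bform (p v w : Fin (k + 3) → ℝ) : ℝ :=
  cdot v w + 4 * (cdot p v * cdot p w) + fP (cdot p p) * (v 0 * w 0 + v 1 * w 1)
    + fS (cdot p p) * (theta p v * theta p w)

/-- The metric as a matrix field. -/
def G (k : ℕ) (p : Fin (k + 3) → ℝ) : Matrix (Fin (k + 3)) (Fin (k + 3)) ℝ :=
  Matrix.of fun i j => bform p (Pi.single i 1) (Pi.single j 1)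

/-- The point `(x, y, z, u = 0)`. -/
def pt (k : ℕ) (x y z : ℝ) : Fin (k + 3) → ℝ :=
  fun i => if (i : ℕ) = 0 then x else if (i : ℕ) = 1 then y else if (i : ℕ) = 2 then z else 0

lemma cdot_comm (v w : Fin (k + 3) → ℝ) : cdot v w = cdot w v := by
  unfold cdot; exact sum_congr rfl fun i _ => mul_comm _ _

lemma cdot_add_right (v w w' : Fin (k + 3) → ℝ) : cdot v (w + w') = cdot v w + cdot v w' := by
  unfold cdot; rw [← sum_add_distrib]
  exact sum_congr rfl fun i _ => by simp [mul_add]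

lemma cdot_smul_right (c : ℝ) (v w : Fin (k + 3) → ℝ) : cdot v (c • w) = c * cdot v w := by
  unfold cdot; rw [mul_sum]
  exact sum_congr rfl fun i _ => by simp; ring

lemma cdot_add_left (v w w' : Fin (k + 3) → ℝ) : cdot (w + w') v = cdot w v + cdot w' v := by
  rw [cdot_comm, cdot_add_right, cdot_comm v, cdot_comm v]

lemma cdot_smul_left (c : ℝ) (v w : Fin (k + 3) → ℝ) : cdot (c • w) v = c * cdot w v := by
  rw [cdot_comm, cdot_smul_right, cdot_comm v]

lemma cdot_self_nonneg (v : Fin (k + 3) → ℝ) : 0 ≤ cdot v v :=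
  sum_nonneg fun _ _ => mul_self_nonneg _

lemma cdot_sq_le (v w : Fin (k + 3) → ℝ) : cdot v w ^ 2 ≤ cdot v v * cdot w w := by
  unfold cdot
  have := sum_mul_sq_le_sq_mul_sq univ (fun i : Fin k => v (uix i)) (fun i => w (uix i))
  simpa [pow_two] using this

lemma bform_comm (p v w : Fin (k + 3) → ℝ) : bform p v w = bform p w v := by
  unfold bform; rw [cdot_comm v w]; ring

/-- The metric as a bilinear map. -/
def bl (p : Fin (k + 3) → ℝ) : (Fin (k + 3) → ℝ) →ₗ[ℝ] (Fin (k + 3) → ℝ) →ₗ[ℝ] ℝ :=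
  LinearMap.mk₂ ℝ (bform p)
    (by intro a b c; unfold bform theta; rw [cdot_add_left, cdot_add_right]; simp; ring)
    (by intro c a b; unfold bform theta; rw [cdot_smul_left, cdot_smul_right]; simp; ring)
    (by intro a b c; unfold bform theta; rw [cdot_add_right, cdot_add_right]; simp; ring)
    (by intro c a b; unfold bform theta; rw [cdot_smul_right, cdot_smul_right]; simp; ring)

lemma bl_apply (p v w : Fin (k + 3) → ℝ) : bl p v w = bform p v w := rfl

/-- expansion of a bilinear map to a general target in the standard basis -/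
lemma bilin_expand {n : ℕ} {E : Type*} [AddCommGroup E] [Module ℝ E]
    (B : (Fin n → ℝ) →ₗ[ℝ] (Fin n → ℝ) →ₗ[ℝ] E) (v w : Fin n → ℝ) :
    B v w = ∑ i, ∑ j, (v i * w j) • B (Pi.single i 1) (Pi.single j 1) := by
  have hv : v = ∑ i, v i • (Pi.single i (1:ℝ) : Fin n → ℝ) := by
    ext a; simp [Finset.sum_apply, Pi.single_apply]
  have hw : w = ∑ i, w i • (Pi.single i (1:ℝ) : Fin n → ℝ) := by
    ext a; simp [Finset.sum_apply, Pi.single_apply]
  conv_lhs => rw [hv, hw]
  simp only [map_sum, LinearMap.sum_apply, map_smul, LinearMap.smul_apply, smul_sum]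
  rw [sum_comm]
  refine sum_congr rfl fun i _ => sum_congr rfl fun j _ => ?_
  rw [smul_smul, mul_comm]

lemma G_sum (p v w : Fin (k + 3) → ℝ) :
    ∑ i, ∑ j, G k p i j * v i * w j = bform p v w := by
  rw [← bl_apply, bilin_expand (bl p) v w]
  refine sum_congr rfl fun i _ => sum_congr rfl fun j _ => ?_
  simp only [G, Matrix.of_apply, bl_apply, smul_eq_mul]
  ring

end

end Pool.Agent.Helper49.Ric
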