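import Pool.Agent.Helper49.Ric.RicciVal

/-! Nonnegativity of the Ricci curvature for `k ≥ 43`. -/

namespace Pool.Agent.Helper49.Ric

open scoped ContDiff
open Finset

noncomputable section

/-- the four coefficient inequalities in abstract form -/
lemma coeffX {w l m e K S P : ℝ} (hw : 0 < w) (hl : 0 < l) (hl1 : l ≤ 1)
    (he : 0 ≤ e) (he1 : e ≤ 1/4) (hm : w / 4 ≤ m) (hK : 43 ≤ K) (hS : S = w ^ 2 * l ^ 2)
    (hP : 1 ≤ P) :
    0 ≤ - 2 * e * (w ^ 2 * l ^ 2 + 2 * w ^ 2 * l ^ 3) - 2 * e * (-(w * l ^ 2)) ^ 2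
      - (-(w * l ^ 2)) * (-(2 * w * (1 + l))) * e - (-(w * l ^ 2)) * m * (K - 4 * e)
      - S / P ^ 2 / 2 := by
  have t : 0 < w ^ 2 * l ^ 2 := by positivity
  have h1 : 2 * e * (w ^ 2 * l ^ 2 + 2 * w ^ 2 * l ^ 3) ≤ (3/2) * (w ^ 2 * l ^ 2) := by
    have : e * (1 + 2 * l) ≤ (1/4) * 3 := by
      apply mul_le_mul he1 (by linarith) (by linarith) (by norm_num)
    nlinarith [mul_le_mul_of_nonneg_right this t.le]
  have h2 : 2 * e * (-(w * l ^ 2)) ^ 2 ≤ (1/2) * (w ^ 2 * l ^ 2) := by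
    have hl2 : l ^ 2 ≤ 1 := by nlinarith
    have : e * l ^ 2 ≤ (1/4) * 1 := mul_le_mul he1 hl2 (by positivity) (by norm_num)
    nlinarith [mul_le_mul_of_nonneg_right this t.le]
  have h3 : (-(w * l ^ 2)) * (-(2 * w * (1 + l))) * e ≤ w ^ 2 * l ^ 2 := by
    have : e * (1 + l) ≤ (1/4) * 2 := mul_le_mul he1 (by linarith) (by linarith) (by norm_num)
    nlinarith [mul_le_mul_of_nonneg_right this t.le]
  have h4 : (42 / 4) * (w ^ 2 * l ^ 2) ≤ (w * l ^ 2) * m * (K - 4 * e) := by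
    have h5 : (w / 4) * 42 ≤ m * (K - 4 * e) :=
      mul_le_mul hm (by linarith) (by norm_num) (by linarith)
    have h6 : 0 ≤ w * l ^ 2 := by positivity
    nlinarith [mul_le_mul_of_nonneg_left h5 h6]
  have h5 : S / P ^ 2 / 2 ≤ (1/2) * (w ^ 2 * l ^ 2) := by
    have : S / P ^ 2 ≤ S := div_le_self (by rw [hS]; positivity) (by nlinarith)
    rw [hS] at this ⊢
    linarith
  nlinarith

lemma coeffZ {w l m e K S P : ℝ} (hw : 0 < w) (hl : 0 < l) (hl1 : l ≤ 1)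
    (he : 0 ≤ e) (he1 : e ≤ 1/4) (hm : w / 4 ≤ m) (hK : 43 ≤ K) (hS : 0 ≤ S) :
    0 ≤ - 2 * e * (2 * w ^ 2 * (1 + l + l ^ 2)) - e * (-(2 * w * (1 + l))) ^ 2
      - 2 * (-(w * l ^ 2)) * (-(2 * w * (1 + l))) * e - (-(2 * w * (1 + l))) * m * (K - 4 * e)
      + S / P ^ 2 / 2 := by
  have t : 0 < w ^ 2 := by positivity
  have hl2 : l ^ 2 ≤ 1 := by nlinarith
  have h1 : 2 * e * (2 * w ^ 2 * (1 + l + l ^ 2)) ≤ 3 * w ^ 2 := by
    have : e * (1 + l + l ^ 2) ≤ (1/4) * 3 :=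
      mul_le_mul he1 (by linarith) (by positivity) (by norm_num)
    nlinarith [mul_le_mul_of_nonneg_right this t.le]
  have h2 : e * (-(2 * w * (1 + l))) ^ 2 ≤ 4 * w ^ 2 := by
    have : e * (1 + l) ^ 2 ≤ (1/4) * 4 :=
      mul_le_mul he1 (by nlinarith) (by positivity) (by norm_num)
    nlinarith [mul_le_mul_of_nonneg_right this t.le]
  have h3 : 2 * (-(w * l ^ 2)) * (-(2 * w * (1 + l))) * e ≤ 2 * w ^ 2 := by
    have h31 : l ^ 2 * (1 + l) ≤ 1 * 2 := mul_le_mul hl2 (by linarith) (by linarith) (by norm_num)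
    have : e * (l ^ 2 * (1 + l)) ≤ (1/4) * 2 :=
      mul_le_mul he1 (by linarith) (by positivity) (by norm_num)
    nlinarith [mul_le_mul_of_nonneg_right this t.le]
  have h4 : 21 * w ^ 2 ≤ (2 * w * (1 + l)) * m * (K - 4 * e) := by
    have h5 : (w / 4) * 42 ≤ m * (K - 4 * e) :=
      mul_le_mul hm (by linarith) (by norm_num) (by linarith)
    have h6 : 2 * w ≤ 2 * w * (1 + l) := by nlinarith
    have h7 : 0 ≤ (w / 4) * 42 := by positivity
    have := mul_le_mul h6 h5 h7 (by positivity)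
    nlinarith
  have h5 : 0 ≤ S / P ^ 2 / 2 := by positivity
  nlinarith

lemma coeffN {w l m e q K : ℝ} (hw : 0 < w) (hl : 0 < l) (hl1 : l ≤ 1)
    (hq : 0 ≤ q) (hqw : q * w ≤ 1) (heq : e = q * m)
    (hm : w / 4 ≤ m) (hK : 43 ≤ K) :
    0 ≤ (4 * m * (K - 1 - 4 * e) - (2 * (-(w * l ^ 2)) + -(2 * w * (1 + l))) * m)
      + (16 * m ^ 2 - 4 * (w ^ 2 * l ^ 2 + 2 * w ^ 2 * l ^ 3) - 2 * (-(w * l ^ 2)) ^ 2
        - 2 * (2 * w ^ 2 * (1 + l + l ^ 2)) - (-(2 * w * (1 + l))) ^ 2) * q := by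
  have hm0 : 0 < m := by linarith
  have hl2 : l ^ 2 ≤ 1 := by nlinarith
  have hl3 : l ^ 3 ≤ 1 := by
    have := pow_le_one₀ hl.le hl1 (n := 3); exact this
  have hl4 : l ^ 4 ≤ 1 := by
    have := pow_le_one₀ hl.le hl1 (n := 4); exact this
  have t : 0 ≤ q * w ^ 2 := by positivity
  have h1 : q * w ^ 2 ≤ w := by nlinarith
  have h2 : (4 * (l ^ 2 + 2 * l ^ 3) + 2 * l ^ 4 + 4 * (1 + l + l ^ 2) + 4 * (1 + l) ^ 2)
      * (q * w ^ 2) ≤ 42 * (q * w ^ 2) := by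
    apply mul_le_mul_of_nonneg_right _ t
    nlinarith
  have h3 : 0 ≤ (2 * (w * l ^ 2) + 2 * w * (1 + l)) * m := by positivity
  have h4 : w * 42 ≤ 4 * m * (K - 1) := by nlinarith
  subst heq
  nlinarith

lemma coeffA {w l m e K : ℝ} (hw : 0 < w) (hl : 0 < l)
    (he1 : e ≤ 1/4) (hm : 0 < m) (hK : 43 ≤ K) :
    0 ≤ (4 * m * (K - 1 - 4 * e) - (2 * (-(w * l ^ 2)) + -(2 * w * (1 + l))) * m) := by
  have h3 : 0 ≤ (2 * (w * l ^ 2) + 2 * w * (1 + l)) * m := by positivity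
  have h4 : 0 ≤ 4 * m * (K - 1 - 4 * e) := by
    apply mul_nonneg (by positivity) (by linarith)
  nlinarith

variable {k : ℕ}

theorem nonnegRicci (hk : 43 ≤ k) : NonnegRicci (G k) := by
  intro p v
  rw [ricci_closed]
  have hq := cdot_self_nonneg p
  have hN := cdot_self_nonneg v
  have hc := cdot_sq_le p v
  set q := cdot p p with hqdef
  set N := cdot v v with hNdef
  set c := cdot p v with hcdef
  have hL1 := one_le_fL hq
  have hL0 := fL_pos hq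
  have hP1 := one_le_fP hq
  have hP0 := fP_pos q
  have hS0 := fS_pos hq
  have hm0 := fm_pos hq
  have hK : (43 : ℝ) ≤ (k : ℝ) := by exact_mod_cast hk
  obtain ⟨w, hwdef⟩ : ∃ w, w = 1 / (1 + q) := ⟨_, rfl⟩
  obtain ⟨l, hldef⟩ : ∃ l, l = 1 / fL q := ⟨_, rfl⟩
  have hw : 0 < w := by rw [hwdef]; positivity
  have hl : 0 < l := by rw [hldef]; positivity
  have hl1 : l ≤ 1 := by rw [hldef]; exact (div_le_one hL0).mpr hL1
  have hqw : q * w ≤ 1 := by
    rw [hwdef]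
    have : q * (1 / (1 + q)) = q / (1 + q) := by ring
    rw [this, div_le_one (by positivity)]
    linarith
  have ha : fa q = -(w * l ^ 2) := by rw [hwdef, hldef]; unfold fa; field_simp
  have ha' : fa' q = w ^ 2 * l ^ 2 + 2 * w ^ 2 * l ^ 3 := by
    rw [hwdef, hldef]; unfold fa'; field_simp
  have hb : fb q = -(2 * w * (1 + l)) := by rw [hwdef, hldef]; unfold fb; field_simp
  have hb' : fb' q = 2 * w ^ 2 * (1 + l + l ^ 2) := by
    rw [hwdef, hldef]; unfold fb'; field_simp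
  have hS : fS q = w ^ 2 * l ^ 2 := by
    rw [hwdef, hldef]; unfold fS; field_simp
  obtain ⟨m, hmdef⟩ : ∃ m, m = fm q := ⟨_, rfl⟩
  obtain ⟨ee, hee⟩ : ∃ ee, ee = q * m := ⟨_, rfl⟩
  have hm : w / 4 ≤ m := by
    rw [hwdef, hmdef]
    unfold fm
    rw [div_div]
    apply one_div_le_one_div_of_le (by positivity)
    linarith
  have he0 : 0 ≤ ee := by rw [hee, hmdef]; positivity
  have he1 : ee ≤ 1/4 := by
    rw [hee, hmdef]; unfold fm
    have : q * (1 / (1 + 4 * q)) = q / (1 + 4 * q) := by ring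
    rw [this, div_le_div_iff₀ (by positivity) (by norm_num)]
    linarith
  have hX := coeffX hw hl hl1 he0 he1 hm hK hS hP1
  have hZ := coeffZ (P := fP q) hw hl hl1 he0 he1 hm hK hS0.le
  have hNN := coeffN hw hl hl1 hq hqw hee hm hK
  have hA := coeffA (K := k) hw hl he1 (by linarith : 0 < m) hK
  rw [← ha, ← ha', ← hb, hee, hmdef] at hX
  rw [← ha, ← hb', ← hb, hee, hmdef] at hZ
  rw [← ha, ← ha', ← hb', ← hb, hee, hmdef] at hNN
  rw [← ha, ← hb, hee, hmdef] at hA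
  have g1 := mul_nonneg (mul_nonneg hP0.le hX) (add_nonneg (sq_nonneg (v 0)) (sq_nonneg (v 1)))
  have g2 := mul_nonneg (mul_nonneg hS0.le hZ) (sq_nonneg (theta p v))
  have g3 : 0 ≤ (4 * fm q * (k - 1 - 4 * (q * fm q)) - (2 * fa q + fb q) * fm q) * N
      + (16 * fm q ^ 2 - 4 * fa' q - 2 * fa q ^ 2 - 2 * fb' q - fb q ^ 2) * c ^ 2 := by
    rcases le_total 0 (16 * fm q ^ 2 - 4 * fa' q - 2 * fa q ^ 2 - 2 * fb' q - fb q ^ 2) with h | h
    · exact add_nonneg (mul_nonneg hA hN) (mul_nonneg h (sq_nonneg c))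
    · have := mul_le_mul_of_nonpos_left hc h
      have h5 := mul_nonneg hNN hN
      nlinarith
  linarith

end

end Pool.Agent.Helper49.Ric
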