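import Pool.Agent.Helper49.Ric.Deriv

/-! The Ricci quadratic form of the metric in closed form. -/

namespace Pool.Agent.Helper49.Ric

set_option linter.unusedSimpArgs false

open scoped ContDiff
open Finset

noncomputable section

variable {k : ℕ}

/-! ### positivity -/

lemma bform_self_nonneg (p v : Fin (k + 3) → ℝ) : 0 ≤ bform p v v := by
  unfold bform
  have h1 := cdot_self_nonneg v
  have h2 := fP_pos (cdot p p)
  have h3 := fS_pos (cdot_self_nonneg p)
  have h4 := mul_self_nonneg (cdot p v)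
  have h5 := mul_nonneg h2.le (add_nonneg (mul_self_nonneg (v 0)) (mul_self_nonneg (v 1)))
  have h6 := mul_nonneg h3.le (mul_self_nonneg (theta p v))
  linarith

lemma bform_pos (p v : Fin (k + 3) → ℝ) (hv : v ≠ 0) : 0 < bform p v v := by
  rcases (bform_self_nonneg p v).lt_or_eq with h | h
  · exact h
  exfalso
  apply hv
  have h1 := cdot_self_nonneg v
  have h2 := fP_pos (cdot p p)
  have h3 := fS_pos (cdot_self_nonneg p)
  have t1 : 0 ≤ 4 * (cdot p v * cdot p v) := by
    have := mul_self_nonneg (cdot p v)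
    linarith
  have t2 : 0 ≤ fP (cdot p p) * (v 0 * v 0 + v 1 * v 1) :=
    mul_nonneg h2.le (add_nonneg (mul_self_nonneg (v 0)) (mul_self_nonneg (v 1)))
  have t3 : 0 ≤ fS (cdot p p) * (theta p v * theta p v) :=
    mul_nonneg h3.le (mul_self_nonneg (theta p v))
  unfold bform at h
  have g1 : cdot v v = 0 := by linarith
  have g2 : fP (cdot p p) * (v 0 * v 0 + v 1 * v 1) = 0 := by linarith
  have g3 : fS (cdot p p) * (theta p v * theta p v) = 0 := by linarith
  have g2' : v 0 * v 0 + v 1 * v 1 = 0 := by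
    rcases mul_eq_zero.mp g2 with h | h
    · exact absurd h h2.ne'
    · exact h
  have g3' : theta p v = 0 := by
    rcases mul_eq_zero.mp g3 with h | h
    · exact absurd h h3.ne'
    · exact mul_self_eq_zero.mp h
  have v0 : v 0 = 0 := by nlinarith [mul_self_nonneg (v 0), mul_self_nonneg (v 1)]
  have v1 : v 1 = 0 := by nlinarith [mul_self_nonneg (v 0), mul_self_nonneg (v 1)]
  have v2 : v 2 = 0 := by
    unfold theta at g3'
    rw [v1] at g3'
    linarith
  refine ext3 v0 v1 v2 (fun i => ?_)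
  have := (sum_eq_zero_iff_of_nonneg (fun i _ => mul_self_nonneg (v (uix i)))).mp g1 i (mem_univ i)
  exact mul_self_eq_zero.mp this

lemma G_apply (p : Fin (k + 3) → ℝ) (i j : Fin (k + 3)) : G k p i j = bform p (e i) (e j) := rfl

lemma G_mulVec (p v : Fin (k + 3) → ℝ) (i : Fin (k + 3)) :
    (G k p).mulVec v i = bform p (e i) v := by
  have h := bilin_expand (bl p) (e i) v
  rw [bl_apply] at h
  rw [h, sum_eq_single i]
  · simp only [Matrix.mulVec, dotProduct]
    refine sum_congr rfl fun j _ => ?_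
    simp [G_apply, bl_apply, mul_comm]
  · intro b _ hb
    refine sum_eq_zero fun j _ => ?_
    simp [Pi.single_apply, hb]
  · intro h; exact absurd (mem_univ i) h

lemma G_isUnit (p : Fin (k + 3) → ℝ) : IsUnit (G k p) := by
  rw [← Matrix.mulVec_injective_iff_isUnit]
  change Function.Injective (Matrix.mulVecLin (G k p))
  rw [injective_iff_map_eq_zero']
  intro v
  constructor
  · intro h
    by_contra hv
    have hp := bform_pos p v hv
    have h2 : bform p v v = ∑ i, v i * (G k p).mulVec v i := by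
      have h3 := bilin_expand (bl p) v v
      rw [bl_apply] at h3
      rw [h3]
      refine sum_congr rfl fun i _ => ?_
      rw [Matrix.mulVec, dotProduct, mul_sum]
      refine sum_congr rfl fun j _ => ?_
      simp only [G_apply, bl_apply, smul_eq_mul]
      ring
    have h4 : (G k p).mulVec v = 0 := h
    rw [h2, h4] at hp
    simp at hp
  · intro h; simp [h]

lemma G_inv_mul (p : Fin (k + 3) → ℝ) : (G k p)⁻¹ * G k p = 1 :=
  Matrix.nonsing_inv_mul _ ((Matrix.isUnit_iff_isUnit_det _).mp (G_isUnit p))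

/-! ### Christoffel symbols -/

lemma pd_G (p : Fin (k + 3) → ℝ) (i j l : Fin (k + 3)) :
    pd i (fun q => G k q j l) p = dB p (e i) (e j) (e l) :=
  (hasLine_bform p (e i) (e j) (e l)).lineDeriv

lemma christoffel_eq (p : Fin (k + 3) → ℝ) (m i j : Fin (k + 3)) :
    christoffel (G k) m i j p = gam p (e i) (e j) m := by
  unfold christoffel
  have h1 : ∀ l, (pd i (fun q => G k q j l) p + pd j (fun q => G k q i l) p
      - pd l (fun q => G k q i j) p) = 2 * (G k p).mulVec (gam p (e i) (e j)) l := by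
    intro l
    rw [pd_G, pd_G, pd_G, koszul, G_mulVec, bform_comm]
  simp_rw [h1]
  have h2 : (1/2 : ℝ) * ∑ l, (G k p)⁻¹ m l * (2 * (G k p).mulVec (gam p (e i) (e j)) l)
      = ((G k p)⁻¹).mulVec ((G k p).mulVec (gam p (e i) (e j))) m := by
    rw [Matrix.mulVec, dotProduct, mul_sum]
    refine sum_congr rfl fun l _ => by ring
  rw [h2, Matrix.mulVec_mulVec, G_inv_mul, Matrix.one_mulVec]

lemma pd_christoffel (p : Fin (k + 3) → ℝ) (r m i j : Fin (k + 3)) :
    pd r (christoffel (G k) m i j) p = dgam p (e r) (e i) (e j) m := by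
  have : christoffel (G k) m i j = fun p => gam p (e i) (e j) m := by
    funext p; exact christoffel_eq p m i j
  rw [this]
  exact (hasLine_gam p (e r) (e i) (e j) m).lineDeriv

lemma ricci_eq (p : Fin (k + 3) → ℝ) (i j : Fin (k + 3)) :
    ricci (G k) i j p = ∑ m, (dgam p (e m) (e i) (e j) m - dgam p (e j) (e i) (e m) m
      + ∑ l, (gam p (e m) (e l) m * gam p (e i) (e j) l
        - gam p (e j) (e l) m * gam p (e i) (e m) l)) := by
  unfold ricci
  simp only [pd_christoffel, christoffel_eq]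

/-! ### bilinearity of the derivative -/

/-- `dgam` as a bilinear map in `(v,w)` -/
def dl (p t : Fin (k + 3) → ℝ) :
    (Fin (k + 3) → ℝ) →ₗ[ℝ] (Fin (k + 3) → ℝ) →ₗ[ℝ] (Fin (k + 3) → ℝ) :=
  LinearMap.mk₂ ℝ (dgam p t)
    (by
      intro a b c
      refine ext3 ?_ ?_ ?_ (fun i => ?_) <;>
      simp [dgam, dgam1, dgam2, dgam3, gam2, kap, dkap, cdot_add_left, cdot_add_right,
        theta_add] <;> ring)
    (by
      intro a b c
      refine ext3 ?_ ?_ ?_ (fun i => ?_) <;>
      simp [dgam, dgam1, dgam2, dgam3, gam2, kap, dkap, cdot_smul_left, cdot_smul_right,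
        theta_smul] <;> ring)
    (by
      intro a b c
      refine ext3 ?_ ?_ ?_ (fun i => ?_) <;>
      simp [dgam, dgam1, dgam2, dgam3, gam2, kap, dkap, cdot_add_left, cdot_add_right,
        theta_add] <;> ring)
    (by
      intro a b c
      refine ext3 ?_ ?_ ?_ (fun i => ?_) <;>
      simp [dgam, dgam1, dgam2, dgam3, gam2, kap, dkap, cdot_smul_left, cdot_smul_right,
        theta_smul] <;> ring)

/-- `dgam` as a bilinear map in `(v,t)` -/
def dr (p w : Fin (k + 3) → ℝ) :
    (Fin (k + 3) → ℝ) →ₗ[ℝ] (Fin (k + 3) → ℝ) →ₗ[ℝ] (Fin (k + 3) → ℝ) :=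
  LinearMap.mk₂ ℝ (fun v t => dgam p t v w)
    (by
      intro a b c
      refine ext3 ?_ ?_ ?_ (fun i => ?_) <;>
      simp [dgam, dgam1, dgam2, dgam3, gam2, kap, dkap, dq, cdot_add_left, cdot_add_right,
        theta_add] <;> ring)
    (by
      intro a b c
      refine ext3 ?_ ?_ ?_ (fun i => ?_) <;>
      simp [dgam, dgam1, dgam2, dgam3, gam2, kap, dkap, dq, cdot_smul_left, cdot_smul_right,
        theta_smul] <;> ring)
    (by
      intro a b c
      refine ext3 ?_ ?_ ?_ (fun i => ?_) <;>
      simp [dgam, dgam1, dgam2, dgam3, gam2, kap, dkap, dq, cdot_add_left, cdot_add_right,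
        theta_add] <;> ring)
    (by
      intro a b c
      refine ext3 ?_ ?_ ?_ (fun i => ?_) <;>
      simp [dgam, dgam1, dgam2, dgam3, gam2, kap, dkap, dq, cdot_smul_left, cdot_smul_right,
        theta_smul] <;> ring)

lemma bilin_expand_coord {n : ℕ} (B : (Fin n → ℝ) →ₗ[ℝ] (Fin n → ℝ) →ₗ[ℝ] (Fin n → ℝ))
    (v w : Fin n → ℝ) (m : Fin n) :
    B v w m = ∑ i, ∑ j, B (Pi.single i 1) (Pi.single j 1) m * v i * w j := by
  rw [bilin_expand B v w, Finset.sum_apply]
  refine sum_congr rfl fun i _ => ?_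
  rw [Finset.sum_apply]
  refine sum_congr rfl fun j _ => ?_
  simp only [Pi.smul_apply, smul_eq_mul]
  ring

lemma lin_expand_coord {n : ℕ} (B : (Fin n → ℝ) →ₗ[ℝ] (Fin n → ℝ))
    (w : Fin n → ℝ) (m : Fin n) :
    B w m = ∑ j, B (Pi.single j 1) m * w j := by
  have hw : w = ∑ i, w i • (Pi.single i (1:ℝ) : Fin n → ℝ) := by
    ext a; simp [Finset.sum_apply, Pi.single_apply]
  conv_lhs => rw [hw]
  rw [map_sum, Finset.sum_apply]
  refine sum_congr rfl fun j _ => ?_
  rw [map_smul]
  simp only [Pi.smul_apply, smul_eq_mul]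
  ring

/-- The Ricci quadratic form as a trace. -/
lemma ricci_quad (p v : Fin (k + 3) → ℝ) :
    ∑ i, ∑ j, ricci (G k) i j p * v i * v j =
      ∑ m, (dgam p (e m) v v m - dgam p v v (e m) m
        + gam p (e m) (gam p v v) m - gam p v (gam p v (e m)) m) := by
  have hT1 : ∀ m, dgam p (e m) v v m = ∑ i, ∑ j, dgam p (e m) (e i) (e j) m * v i * v j :=
    fun m => bilin_expand_coord (dl p (e m)) v v m
  have hT2 : ∀ m, dgam p v v (e m) m = ∑ i, ∑ j, dgam p (e j) (e i) (e m) m * v i * v j :=
    fun m => bilin_expand_coord (dr p (e m)) v v m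
  have hg : ∀ l, gam p v v l = ∑ i, ∑ j, gam p (e i) (e j) l * v i * v j :=
    fun l => bilin_expand_coord (gl p) v v l
  have hT3 : ∀ m, gam p (e m) (gam p v v) m =
      ∑ i, ∑ j, (∑ l, gam p (e m) (e l) m * gam p (e i) (e j) l) * v i * v j := by
    intro m
    have h := lin_expand_coord (gl p (e m)) (gam p v v) m
    rw [gl_apply] at h
    rw [h]
    simp_rw [gl_apply, hg, mul_sum, sum_mul]
    rw [sum_comm]
    refine sum_congr rfl fun i _ => ?_
    rw [sum_comm]
    refine sum_congr rfl fun j _ => ?_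
    refine sum_congr rfl fun l _ => ?_
    ring
  have hT4 : ∀ m, gam p v (gam p v (e m)) m =
      ∑ i, ∑ j, (∑ l, gam p (e j) (e l) m * gam p (e i) (e m) l) * v i * v j := by
    intro m
    have h := lin_expand_coord (gl p v) (gam p v (e m)) m
    rw [gl_apply] at h
    rw [h]
    have h5 : ∀ l, gam p v (e l) m = ∑ j, gam p (e j) (e l) m * v j := by
      intro l
      have := lin_expand_coord ((gl p).flip (e l)) v m
      simpa [LinearMap.flip_apply, gl_apply] using this
    have h6 : ∀ l, gam p v (e m) l = ∑ i, gam p (e i) (e m) l * v i := by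
      intro l
      have := lin_expand_coord ((gl p).flip (e m)) v l
      simpa [LinearMap.flip_apply, gl_apply] using this
    simp_rw [gl_apply, h5, h6, mul_sum, sum_mul]
    rw [sum_comm]
    refine sum_congr rfl fun i _ => ?_
    rw [sum_comm]
    refine sum_congr rfl fun j _ => ?_
    refine sum_congr rfl fun l _ => ?_
    ring
  have hL : ∑ i, ∑ j, ricci (G k) i j p * v i * v j =
      ∑ m, ∑ i, ∑ j, (dgam p (e m) (e i) (e j) m - dgam p (e j) (e i) (e m) m
      + ∑ l, (gam p (e m) (e l) m * gam p (e i) (e j) l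
        - gam p (e j) (e l) m * gam p (e i) (e m) l)) * v i * v j := by
    symm
    rw [sum_comm]
    refine sum_congr rfl fun i _ => ?_
    rw [sum_comm]
    refine sum_congr rfl fun j _ => ?_
    rw [ricci_eq, sum_mul, sum_mul]
  rw [hL]
  refine sum_congr rfl fun m _ => ?_
  rw [hT1, hT2, hT3, hT4]
  simp only [← sum_sub_distrib, ← sum_add_distrib]
  refine sum_congr rfl fun i _ => sum_congr rfl fun j _ => ?_
  rw [sum_sub_distrib]
  ring

end

end Pool.Agent.Helper49.Ric
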