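import Pool.Agent.Helper49.Ric.RicciForm

/-! Evaluation of the traces and nonnegativity of the Ricci form. -/

namespace Pool.Agent.Helper49.Ric

set_option linter.unusedSimpArgs false

open scoped ContDiff
open Finset

noncomputable section

variable {k : ℕ}

lemma sum_quad (p v : Fin (k + 3) → ℝ) (α β γ δ : ℝ) :
    ∑ i : Fin k, (α + β * (p (uix i) * p (uix i)) + γ * (p (uix i) * v (uix i))
      + δ * (v (uix i) * v (uix i))) = k * α + β * cdot p p + γ * cdot p v + δ * cdot v v := by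
  simp only [sum_add_distrib, ← mul_sum, sum_const, card_univ, Fintype.card_fin, nsmul_eq_mul]
  rfl

lemma T1_eq (p v : Fin (k + 3) → ℝ) :
    ∑ m, dgam p (e m) v v m =
      - (fS (cdot p p) / fP (cdot p p)) * v 1 ^ 2
      + k * (fm (cdot p p) * kap p v v)
      - 8 * fm (cdot p p) ^ 2 * cdot p p * kap p v v
      - 2 * fm (cdot p p) * cdot p p *
        ((fa' (cdot p p) + fa (cdot p p) ^ 2) * fP (cdot p p) * (v 0 ^ 2 + v 1 ^ 2)
          + (fb' (cdot p p) + fb (cdot p p) ^ 2) * fS (cdot p p) * theta p v ^ 2) := by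
  rw [sum_split]
  have h0 : dgam p (e 0) v v 0 = - (fS (cdot p p) / fP (cdot p p)) * v 1 ^ 2 := by
    simp only [dgam, mk3_0, dgam1, dq, cdot_e0, cdot_e0', e0_0]
    ring
  have h1 : dgam p (e 1) v v 1 = 0 := by
    simp only [dgam, mk3_1, dgam2, dq, cdot_e1, cdot_e1', e1_0]
    ring
  have h2 : dgam p (e 2) v v 2 = 0 := by
    simp only [dgam, mk3_2, dgam3, dgam2, dq, cdot_e2, cdot_e2', e2_0]
    ring
  have hu : ∑ i : Fin k, dgam p (e (uix i)) v v (uix i) =
      ∑ i : Fin k, ((fm (cdot p p) * kap p v v)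
      + (- 8 * fm (cdot p p) ^ 2 * kap p v v - 2 * fm (cdot p p) *
        ((fa' (cdot p p) + fa (cdot p p) ^ 2) * fP (cdot p p) * (v 0 ^ 2 + v 1 ^ 2)
          + (fb' (cdot p p) + fb (cdot p p) ^ 2) * fS (cdot p p) * theta p v ^ 2))
          * (p (uix i) * p (uix i))
      + 0 * (p (uix i) * v (uix i)) + 0 * (v (uix i) * v (uix i))) := by
    refine sum_congr rfl fun i _ => ?_
    have : (e (uix i) : Fin (k+3) → ℝ) (uix i) = 1 := by simp
    simp only [dgam, mk3_u, dkap, dq, cdot_eu, eu_0, this]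
    ring
  rw [h0, h1, h2, hu, sum_quad]
  ring

lemma T2_eq (p v : Fin (k + 3) → ℝ) :
    ∑ m, dgam p v v (e m) m =
      (4 * fa' (cdot p p) + 2 * fb' (cdot p p) - 32 * fm (cdot p p) ^ 2) * cdot p v ^ 2
      + (2 * fa (cdot p p) + fb (cdot p p) + 4 * fm (cdot p p)) * cdot v v := by
  rw [sum_split]
  have h0 : dgam p v v (e 0) 0 = 2 * fa' (cdot p p) * cdot p v ^ 2 + fa (cdot p p) * cdot v v := by
    simp only [dgam, mk3_0, dgam1, dq, cdot_e0, cdot_e0', e0_0, e0_1, theta_e0]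
    ring
  have h1 : dgam p v v (e 1) 1 = 2 * fa' (cdot p p) * cdot p v ^ 2 + fa (cdot p p) * cdot v v
      + (1/2) * (fS (cdot p p) / fP (cdot p p)) *
        ((fb (cdot p p) - fa (cdot p p)) * 2 * cdot p v * p 0 * v 0 + v 0 ^ 2) := by
    simp only [dgam, mk3_1, dgam2, dq, cdot_e1, cdot_e1', e1_0, e1_1, theta_e1]
    ring
  have h2 : dgam p v v (e 2) 2 = 2 * fb' (cdot p p) * cdot p v ^ 2 + fb (cdot p p) * cdot v v
      - (1/2) * (fS (cdot p p) / fP (cdot p p)) *
        ((fb (cdot p p) - fa (cdot p p)) * 2 * cdot p v * p 0 * v 0 + v 0 ^ 2) := by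
    simp only [dgam, mk3_2, dgam3, dgam2, gam2, dq, cdot_e2, cdot_e2', e2_0, e2_1, theta_e2]
    ring
  have hu : ∑ i : Fin k, dgam p v v (e (uix i)) (uix i) =
      ∑ i : Fin k, (0 + 0 * (p (uix i) * p (uix i))
      + (- 32 * fm (cdot p p) ^ 2 * cdot p v) * (p (uix i) * v (uix i))
      + (4 * fm (cdot p p)) * (v (uix i) * v (uix i))) := by
    refine sum_congr rfl fun i _ => ?_
    simp only [dgam, mk3_u, dkap, kap, dq, cdot_eu, eu_0, eu_1, theta_eu]
    ring
  rw [h0, h1, h2, hu, sum_quad]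
  ring

lemma T3_eq (p g : Fin (k + 3) → ℝ) :
    ∑ m, gam p (e m) g m =
      (2 * fa (cdot p p) + fb (cdot p p) + 4 * fm (cdot p p)) * cdot p g := by
  rw [sum_split]
  have h0 : gam p (e 0) g 0 = fa (cdot p p) * cdot p g := by
    simp only [gam, mk3_0, gam1, cdot_e0, cdot_e0', e0_0, e0_1, theta_e0]
    ring
  have h1 : gam p (e 1) g 1 = fa (cdot p p) * cdot p g
      + (1/2) * (fS (cdot p p) / fP (cdot p p)) * p 0 * g 0 := by
    simp only [gam, mk3_1, gam2, cdot_e1, cdot_e1', e1_0, e1_1, theta_e1]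
    ring
  have h2 : gam p (e 2) g 2 = fb (cdot p p) * cdot p g
      - (1/2) * (fS (cdot p p) / fP (cdot p p)) * p 0 * g 0 := by
    simp only [gam, mk3_2, gam3, gam2, cdot_e2, cdot_e2', e2_0, e2_1, theta_e2]
    ring
  have hu : ∑ i : Fin k, gam p (e (uix i)) g (uix i) =
      ∑ i : Fin k, (0 + 0 * (p (uix i) * p (uix i))
      + (4 * fm (cdot p p)) * (p (uix i) * g (uix i))
      + 0 * (g (uix i) * g (uix i))) := by
    refine sum_congr rfl fun i _ => ?_
    simp only [gam, mk3_u, kap, cdot_eu, cdot_eu', eu_0, eu_1, theta_eu]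
    ring
  rw [h0, h1, h2, hu, sum_quad]
  ring

/-- components of `Γ(v, w)` -/
lemma theta_gam (p v w : Fin (k + 3) → ℝ) : theta p (gam p v w) =
    fb (cdot p p) * (cdot p v * theta p w + cdot p w * theta p v)
    - (1 / 2) * (v 0 * w 1 + v 1 * w 0) := by
  simp [theta, gam, gam3]

lemma T4_eq (p v : Fin (k + 3) → ℝ) :
    ∑ m, gam p v (gam p v (e m)) m =
      2 * fa (cdot p p) ^ 2 * cdot p v ^ 2 + fb (cdot p p) ^ 2 * cdot p v ^ 2
      - (1/2) * (fS (cdot p p) / fP (cdot p p)) ^ 2 * theta p v ^ 2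
      - (1/2) * (fS (cdot p p) / fP (cdot p p)) * v 1 ^ 2
      + (1/2) * (fS (cdot p p) / fP (cdot p p)) * v 0 ^ 2
      - 2 * fm (cdot p p) * cdot p p *
        (fa (cdot p p) ^ 2 * fP (cdot p p) * (v 0 ^ 2 + v 1 ^ 2)
          + fb (cdot p p) ^ 2 * fS (cdot p p) * theta p v ^ 2)
      + 16 * fm (cdot p p) ^ 2 * cdot p v ^ 2 := by
  rw [sum_split]
  have c0 : ∀ w, (gam p v w) 0 = gam1 p v w := fun _ => rfl
  have c1 : ∀ w, (gam p v w) 1 = gam2 p v w := fun _ => rfl
  have c2 : ∀ w, (gam p v w) 2 = gam3 p v w := fun _ => rfl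
  have cu : ∀ w (i : Fin k), (gam p v w) (uix i) = p (uix i) * (fm (cdot p p) * kap p v w) :=
    fun _ _ => rfl
  have h0 : gam p v (gam p v (e 0)) 0 =
      fa (cdot p p) ^ 2 * cdot p v ^ 2
        - fa (cdot p p) ^ 2 * cdot p p * fm (cdot p p) * fP (cdot p p) * v 0 ^ 2
        - (1/4) * (fS (cdot p p) / fP (cdot p p)) * v 1 ^ 2
        - (1/4) * (fS (cdot p p) / fP (cdot p p)) ^ 2 * theta p v ^ 2 := by
    rw [c0]
    unfold gam1
    rw [theta_gam, cdot_gam, c0, c1]
    simp only [gam1, gam2, kap, cdot_e0, e0_0, e0_1, theta_e0]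
    ring
  have h1 : gam p v (gam p v (e 1)) 1 =
      fa (cdot p p) * cdot p v * (fa (cdot p p) * cdot p v
          + (1/2) * (fS (cdot p p) / fP (cdot p p)) * p 0 * v 0)
        + fa (cdot p p) * cdot p p * fm (cdot p p) * v 1 *
          (- fa (cdot p p) * fP (cdot p p) * v 1 + fb (cdot p p) * fS (cdot p p) * p 0 * theta p v)
        - (1/2) * (fS (cdot p p) / fP (cdot p p)) *
          (v 0 * (- fb (cdot p p) * cdot p v * p 0 - (1/2) * v 0)
            + (1/2) * (fS (cdot p p) / fP (cdot p p)) * (theta p v - p 0 * v 1) * theta p v) := by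
    rw [c1]
    unfold gam2
    rw [theta_gam, cdot_gam, c0, c1]
    simp only [gam1, gam2, kap, cdot_e1, e1_0, e1_1, theta_e1]
    ring
  have h2 : gam p v (gam p v (e 2)) 2 =
      fb (cdot p p) ^ 2 * cdot p v ^ 2
        - fb (cdot p p) ^ 2 * cdot p p * fm (cdot p p) * fS (cdot p p) * theta p v ^ 2
        + (1/4) * (fS (cdot p p) / fP (cdot p p)) * v 0 ^ 2
        - (1/4) * (fS (cdot p p) / fP (cdot p p)) * v 1 ^ 2
        + p 0 * (- (1/2) * fa (cdot p p) * cdot p v * (fS (cdot p p) / fP (cdot p p)) * v 0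
          - fa (cdot p p) * fb (cdot p p) * cdot p p * fm (cdot p p) * fS (cdot p p) * theta p v * v 1
          - (1/2) * (fS (cdot p p) / fP (cdot p p)) *
            (v 0 * (fb (cdot p p) * cdot p v)
              + (1/2) * (fS (cdot p p) / fP (cdot p p)) * v 1 * theta p v)) := by
    rw [c2]
    unfold gam3
    rw [theta_gam, cdot_gam, c0, c1]
    have hg2 : gam2 p v (gam p v (e 2)) =
        fa (cdot p p) * (cdot p v * (gam2 p v (e 2)) + (cdot p p * (fm (cdot p p) * kap p v (e 2))) * v 1)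
        - (1/2) * (fS (cdot p p) / fP (cdot p p)) *
          (v 0 * (fb (cdot p p) * (cdot p v * theta p (e 2) + cdot p (e 2) * theta p v)
            - (1 / 2) * (v 0 * (e 2 : Fin (k+3) → ℝ) 1 + v 1 * (e 2 : Fin (k+3) → ℝ) 0))
            + (gam1 p v (e 2)) * theta p v) := by
      conv_lhs => unfold gam2
      rw [theta_gam, cdot_gam, c0, c1]
    rw [hg2]
    simp only [gam1, gam2, kap, cdot_e2, e2_0, e2_1, theta_e2]
    ring
  have hu : ∑ i : Fin k, gam p v (gam p v (e (uix i))) (uix i) =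
      ∑ i : Fin k, (0 + (- fm (cdot p p) *
        (fa (cdot p p) ^ 2 * fP (cdot p p) * (v 0 ^ 2 + v 1 ^ 2)
          + fb (cdot p p) ^ 2 * fS (cdot p p) * theta p v ^ 2)) * (p (uix i) * p (uix i))
      + (16 * fm (cdot p p) ^ 2 * cdot p v) * (p (uix i) * v (uix i))
      + 0 * (v (uix i) * v (uix i))) := by
    refine sum_congr rfl fun i _ => ?_
    rw [cu]
    have hk : kap p v (gam p v (e (uix i))) = 4 * (cdot v p * (fm (cdot p p) * kap p v (e (uix i))))
        - fa (cdot p p) * fP (cdot p p) * (v 0 * gam1 p v (e (uix i)) + v 1 * gam2 p v (e (uix i)))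
        - fb (cdot p p) * fS (cdot p p) * (theta p v * theta p (gam p v (e (uix i)))) := by
      conv_lhs => unfold kap
      rw [cdot_gam, c0, c1]
    rw [hk, theta_gam, cdot_comm v p]
    simp only [gam1, gam2, kap, cdot_eu, eu_0, eu_1, theta_eu]
    ring
  rw [h0, h1, h2, hu, sum_quad]
  ring

/-- Closed form of the Ricci quadratic form. -/
lemma ricci_closed (p v : Fin (k + 3) → ℝ) :
    ∑ i, ∑ j, ricci (G k) i j p * v i * v j =
      fP (cdot p p) * (- 2 * (cdot p p * fm (cdot p p)) * fa' (cdot p p)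
          - 2 * (cdot p p * fm (cdot p p)) * fa (cdot p p) ^ 2
          - fa (cdot p p) * fb (cdot p p) * (cdot p p * fm (cdot p p))
          - fa (cdot p p) * fm (cdot p p) * (k - 4 * (cdot p p * fm (cdot p p)))
          - fS (cdot p p) / fP (cdot p p) ^ 2 / 2) * (v 0 ^ 2 + v 1 ^ 2)
      + fS (cdot p p) * (- 2 * (cdot p p * fm (cdot p p)) * fb' (cdot p p)
          - (cdot p p * fm (cdot p p)) * fb (cdot p p) ^ 2
          - 2 * fa (cdot p p) * fb (cdot p p) * (cdot p p * fm (cdot p p))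
          - fb (cdot p p) * fm (cdot p p) * (k - 4 * (cdot p p * fm (cdot p p)))
          + fS (cdot p p) / fP (cdot p p) ^ 2 / 2) * theta p v ^ 2
      + (4 * fm (cdot p p) * (k - 1 - 4 * (cdot p p * fm (cdot p p)))
          - (2 * fa (cdot p p) + fb (cdot p p)) * fm (cdot p p)) * cdot v v
      + (16 * fm (cdot p p) ^ 2 - 4 * fa' (cdot p p) - 2 * fa (cdot p p) ^ 2
          - 2 * fb' (cdot p p) - fb (cdot p p) ^ 2) * cdot p v ^ 2 := by
  rw [ricci_quad, sum_sub_distrib, sum_add_distrib, sum_sub_distrib, T1_eq, T2_eq, T3_eq, T4_eq,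
    cdot_gam]
  have hP := (fP_pos (cdot p p)).ne'
  have hm := fm_mul (cdot_self_nonneg p)
  have hk : kap p v v = 4 * cdot v v - fa (cdot p p) * fP (cdot p p) * (v 0 ^ 2 + v 1 ^ 2)
    - fb (cdot p p) * fS (cdot p p) * theta p v ^ 2 := by unfold kap; ring
  rw [hk]
  generalize cdot p p = q at *
  generalize cdot p v = c at *
  generalize cdot v v = N at *
  generalize theta p v = τ at *
  generalize v 0 = A at *
  generalize v 1 = B at *
  generalize fP q = P at *
  generalize fS q = S at *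
  generalize fa q = a at *
  generalize fb q = b at *
  generalize fa' q = a' at *
  generalize fb' q = b' at *
  generalize fm q = m at *
  have hPi : P * P⁻¹ = 1 := mul_inv_cancel₀ hP
  linear_combination (2 * a + b) * N * hm + (1 / 2) * S * (A ^ 2 + B ^ 2) * P⁻¹ * hPi

end

end Pool.Agent.Helper49.Ric
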