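import Pool.Agent.Helper49.Ric.Nonneg

/-! Smoothness; the metric is a Riemannian metric. -/

namespace Pool.Agent.Helper49.Ric

open scoped ContDiff
open Finset

noncomputable section

variable {k : ℕ}

lemma contDiff_cdot (v : Fin (k + 3) → ℝ) : ContDiff ℝ ∞ (fun p : Fin (k + 3) → ℝ => cdot p v) := by
  unfold cdot
  refine ContDiff.sum fun i _ => ?_
  exact (contDiff_apply ℝ ℝ (uix i)).mul contDiff_const

lemma contDiff_q : ContDiff ℝ ∞ (fun p : Fin (k + 3) → ℝ => cdot p p) := by
  unfold cdot
  refine ContDiff.sum fun i _ => ?_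
  exact (contDiff_apply ℝ ℝ (uix i)).mul (contDiff_apply ℝ ℝ (uix i))

lemma contDiff_theta (v : Fin (k + 3) → ℝ) :
    ContDiff ℝ ∞ (fun p : Fin (k + 3) → ℝ => theta p v) := by
  unfold theta
  exact contDiff_const.sub ((contDiff_apply ℝ ℝ (0 : Fin (k+3))).mul contDiff_const)

lemma contDiff_L : ContDiff ℝ ∞ (fun p : Fin (k + 3) → ℝ => fL (cdot p p)) := by
  unfold fL
  refine contDiff_const.add (ContDiff.log (contDiff_const.add contDiff_q) fun p => ?_)
  have := cdot_self_nonneg p
  positivity

lemma contDiff_P : ContDiff ℝ ∞ (fun p : Fin (k + 3) → ℝ => fP (cdot p p)) := by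
  unfold fP
  refine (contDiff_const.div contDiff_L fun p => ?_).exp
  exact (fL_pos (cdot_self_nonneg p)).ne'

lemma contDiff_S : ContDiff ℝ ∞ (fun p : Fin (k + 3) → ℝ => fS (cdot p p)) := by
  unfold fS
  refine contDiff_const.div (((contDiff_const.add contDiff_q).mul contDiff_L).pow 2) fun p => ?_
  have := fL_pos (cdot_self_nonneg p)
  have := cdot_self_nonneg p
  positivity

lemma contDiff_bform (v w : Fin (k + 3) → ℝ) :
    ContDiff ℝ ∞ (fun p : Fin (k + 3) → ℝ => bform p v w) := by
  unfold bform
  exact ((contDiff_const.add (contDiff_const.mul ((contDiff_cdot v).mul (contDiff_cdot w)))).add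
    (contDiff_P.mul contDiff_const)).add (contDiff_S.mul ((contDiff_theta v).mul (contDiff_theta w)))

theorem isRiemannianMetric (k : ℕ) : IsRiemannianMetric (G k) where
  smooth i j := contDiff_bform (e i) (e j)
  symm p i j := bform_comm p _ _
  pos p v hv := by
    rw [G_sum]
    exact bform_pos p v hv

end

end Pool.Agent.Helper49.Ric
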